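import Mathlib

/-! The arithmetic behind the composition: weights in convex position. -/

namespace Pool.Agent.Lib.MP_7de5c3_lc

open Finset

theorem digit_unique {B a b a' b' : ℕ} (hb : b < B) (hb' : b' < B) (h : B * a + b = B * a' + b') :
    a = a' ∧ b = b' := by
  have h1 : (B * a + b) % B = (B * a' + b') % B := by rw [h]
  rw [Nat.mul_add_mod, Nat.mul_add_mod, Nat.mod_eq_of_lt hb, Nat.mod_eq_of_lt hb'] at h1
  subst h1
  exact ⟨Nat.eq_of_mul_eq_mul_left (by omega) (Nat.add_right_cancel h), rfl⟩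

theorem concentrate {t N B j s : ℕ} (τ : ℕ → ℕ) (hj : j < t) (hτ : ∑ i ∈ range t, τ i ≤ N)
    (hs : s ≤ N) (hB : t * t * N < B)
    (h : ∑ i ∈ range t, (B * B + B * i + i * i) * τ i = (B * B + B * j + j * j) * s) :
    τ j = s := by
  have ht : t ≤ t * t := Nat.le_mul_self t
  have hb : ∑ i ∈ range t, i * τ i ≤ t * t * N := by
    calc ∑ i ∈ range t, i * τ i ≤ ∑ i ∈ range t, t * t * τ i :=
          sum_le_sum fun i hi => Nat.mul_le_mul_right _ (by have := mem_range.1 hi; omega)
      _ = t * t * ∑ i ∈ range t, τ i := by rw [mul_sum]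
      _ ≤ _ := Nat.mul_le_mul_left _ hτ
  have hc : ∑ i ∈ range t, i * i * τ i ≤ t * t * N := by
    calc ∑ i ∈ range t, i * i * τ i ≤ ∑ i ∈ range t, t * t * τ i :=
          sum_le_sum fun i hi => Nat.mul_le_mul_right _
            (Nat.mul_le_mul (mem_range.1 hi).le (mem_range.1 hi).le)
      _ = t * t * ∑ i ∈ range t, τ i := by rw [mul_sum]
      _ ≤ _ := Nat.mul_le_mul_left _ hτ
  have hb' : j * s ≤ t * t * N := Nat.mul_le_mul (by omega) hs
  have hc' : j * j * s ≤ t * t * N := Nat.mul_le_mul (Nat.mul_le_mul hj.le hj.le) hs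
  have h1 : B * (B * ∑ i ∈ range t, τ i + ∑ i ∈ range t, i * τ i) + ∑ i ∈ range t, i * i * τ i =
      B * (B * s + j * s) + j * j * s := by
    rw [mul_add, ← mul_assoc, mul_sum, mul_sum, ← sum_add_distrib, ← sum_add_distrib]
    refine Eq.trans (sum_congr rfl fun i _ => by ring) (h.trans (by ring))
  obtain ⟨h2, h3⟩ := digit_unique (by omega) (by omega) h1
  obtain ⟨h4, h5⟩ := digit_unique (by omega) (by omega) h2
  have h6 : ∑ i ∈ range t, ((i : ℤ) - j) ^ 2 * τ i = 0 := by
    have e : ∑ i ∈ range t, ((i : ℤ) - j) ^ 2 * τ i =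
        ((∑ i ∈ range t, i * i * τ i : ℕ) : ℤ) - 2 * j * ((∑ i ∈ range t, i * τ i : ℕ) : ℤ) +
          j * j * ((∑ i ∈ range t, τ i : ℕ) : ℤ) := by
      push_cast
      rw [mul_sum, mul_sum, ← sum_sub_distrib, ← sum_add_distrib]
      exact sum_congr rfl fun i _ => by ring
    rw [e, h3, h4, h5]
    push_cast
    ring
  rw [sum_eq_zero_iff_of_nonneg (fun i _ => by positivity)] at h6
  rw [← h4, sum_eq_single j]
  · intro i hi hne
    have := h6 i hi
    rcases mul_eq_zero.1 this with h7 | h7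
    · exact absurd (by exact_mod_cast sub_eq_zero.1 (pow_eq_zero_iff two_ne_zero |>.1 h7)) hne
    · exact_mod_cast h7
  · intro hn
    exact absurd (mem_range.2 hj) hn

theorem select {t N B Z : ℕ} (τ s : ℕ → ℕ) (σ : ℕ → Prop) [DecidablePred σ]
    (hτ : ∑ i ∈ range t, τ i ≤ N) (hs : ∀ j < t, s j ≤ N) (hB : t * t * N < B)
    (hZ : 2 * (N * (B * B + B * t + t * t)) < Z)
    (h : ∑ i ∈ range t, ((B * B + B * i + i * i) * τ i +
      if σ i then Z - (B * B + B * i + i * i) * s i else 0) = Z) :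
    ∃ j < t, τ j = s j := by
  have hw : ∀ i < t, B * B + B * i + i * i ≤ B * B + B * t + t * t := fun i hi => by
    have := Nat.mul_le_mul_left B hi.le
    have := Nat.mul_le_mul hi.le hi.le
    omega
  have hws : ∀ i < t, (B * B + B * i + i * i) * s i ≤ N * (B * B + B * t + t * t) := fun i hi => by
    rw [mul_comm]; exact Nat.mul_le_mul (hs i hi) (hw i hi)
  have hT : ∑ i ∈ range t, (B * B + B * i + i * i) * τ i ≤ N * (B * B + B * t + t * t) := by
    calc _ ≤ ∑ i ∈ range t, (B * B + B * t + t * t) * τ i :=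
          sum_le_sum fun i hi => Nat.mul_le_mul_right _ (hw i (mem_range.1 hi))
      _ = (B * B + B * t + t * t) * ∑ i ∈ range t, τ i := by rw [mul_sum]
      _ ≤ _ := by rw [mul_comm]; exact Nat.mul_le_mul_right _ hτ
  rw [sum_add_distrib, ← sum_filter] at h
  obtain hJ | ⟨j, hj⟩ := ((range t).filter σ).eq_empty_or_nonempty
  · rw [hJ, sum_empty] at h
    omega
  have hjt : j < t := mem_range.1 (mem_filter.1 hj).1
  have hJ : (range t).filter σ = {j} := by
    refine eq_singleton_iff_unique_mem.2 ⟨hj, fun i hi => ?_⟩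
    by_contra hne
    have hit : i < t := mem_range.1 (mem_filter.1 hi).1
    have h2 : ∑ x ∈ ({i, j} : Finset ℕ), (Z - (B * B + B * x + x * x) * s x) ≤
        ∑ x ∈ (range t).filter σ, (Z - (B * B + B * x + x * x) * s x) :=
      sum_le_sum_of_subset (by
        intro x hx
        rcases mem_insert.1 hx with rfl | hx
        · exact hi
        · rw [mem_singleton.1 hx]; exact hj)
    rw [sum_pair hne] at h2
    replace h2 := h2.trans ((Nat.le_add_left _ _).trans h.le)
    have := hws i hit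
    have := hws j hjt
    omega
  rw [hJ, sum_singleton] at h
  have := hws j hjt
  exact ⟨j, hjt, concentrate τ hjt hτ (hs j hjt) hB (by omega)⟩

end Pool.Agent.Lib.MP_7de5c3_lc
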