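import Pool.Agent.Lib.MP_7de5c3_lc.Cut

/-! Blow-ups: every base vertex `(j, v)` is replaced by a clique of `W j v` vertices. -/

namespace Pool.Agent.Lib.MP_7de5c3_lc

open Finset

/-- The list of all labels `(j, v, c)` with `j < t`, `v < len j`, `c < W j v`. -/
def lab (t : ℕ) (len : ℕ → ℕ) (W : ℕ → ℕ → ℕ) : List (ℕ × ℕ × ℕ) :=
  (List.range t).flatMap fun j => (List.range (len j)).flatMap fun v =>
    (List.range (W j v)).map fun c => (j, v, c)

theorem mem_lab {t : ℕ} {len : ℕ → ℕ} {W : ℕ → ℕ → ℕ} {a : ℕ × ℕ × ℕ} :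
    a ∈ lab t len W ↔ a.1 < t ∧ a.2.1 < len a.1 ∧ a.2.2 < W a.1 a.2.1 := by
  obtain ⟨j, v, c⟩ := a
  simp only [lab, List.mem_flatMap, List.mem_range, List.mem_map, Prod.mk.injEq]
  constructor
  · rintro ⟨j', hj, v', hv, c', hc, rfl, rfl, rfl⟩
    exact ⟨hj, hv, hc⟩
  · rintro ⟨hj, hv, hc⟩
    exact ⟨j, hj, v, hv, c, hc, rfl, rfl, rfl⟩

theorem nodup_lab (t : ℕ) (len : ℕ → ℕ) (W : ℕ → ℕ → ℕ) : (lab t len W).Nodup := by
  unfold lab
  rw [List.nodup_flatMap]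
  refine ⟨fun j _ => ?_, ?_⟩
  · rw [List.nodup_flatMap]
    refine ⟨fun v _ => List.nodup_range.map (fun c c' h => by simpa using h), ?_⟩
    refine List.nodup_range.pairwise_of_forall_ne ?_
    intro v _ v' _ hne
    simp only [Function.onFun, List.disjoint_left, List.mem_map, List.mem_range]
    rintro _ ⟨c, -, rfl⟩ ⟨c', -, h⟩
    simp only [Prod.mk.injEq] at h
    exact hne h.2.1.symm
  · refine List.nodup_range.pairwise_of_forall_ne ?_
    intro j _ j' _ hne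
    simp only [Function.onFun, List.disjoint_left, List.mem_flatMap, List.mem_map, List.mem_range]
    rintro _ ⟨v, -, c, -, rfl⟩ ⟨v', -, c', -, h⟩
    simp only [Prod.mk.injEq] at h
    exact hne h.1.symm

theorem sum_map_range (f : ℕ → ℕ) (t : ℕ) : ((List.range t).map f).sum = ∑ j ∈ range t, f j := by
  induction t with
  | zero => simp
  | succ t ih => rw [List.range_succ, List.map_append, List.sum_append, ih, sum_range_succ]; simp

theorem countP_lab (t : ℕ) (len : ℕ → ℕ) (W : ℕ → ℕ → ℕ) (Q : ℕ → ℕ → Prop)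
    [∀ j v, Decidable (Q j v)] :
    (lab t len W).countP (fun a => decide (Q a.1 a.2.1)) =
      ∑ j ∈ range t, ∑ v ∈ range (len j), if Q j v then W j v else 0 := by
  unfold lab
  rw [List.countP_flatMap, sum_map_range]
  refine sum_congr rfl fun j _ => ?_
  rw [Function.comp_apply, List.countP_flatMap, sum_map_range]
  refine sum_congr rfl fun v _ => ?_
  rw [Function.comp_apply, List.countP_map]
  by_cases h : Q j v
  · simp [h, Function.comp_def]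
  · simp [h, Function.comp_def]

theorem length_lab (t : ℕ) (len : ℕ → ℕ) (W : ℕ → ℕ → ℕ) :
    (lab t len W).length = ∑ j ∈ range t, ∑ v ∈ range (len j), W j v := by
  simpa using countP_lab t len W (fun _ _ => True)

theorem card_filter_getD {γ : Type} (L : List γ) (d : γ) (P : γ → Bool) {M : ℕ}
    (hM : M = L.length) :
    (univ.filter fun i : Fin M => P (L.getD i d) = true).card = L.countP P := by
  subst hM
  induction L with
  | nil => simp
  | cons a L ih =>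
    rw [List.countP_cons, ← ih, card_filter, card_filter]
    erw [Fin.sum_univ_succ]
    simp only [Fin.val_zero, List.getD_cons_zero, Fin.val_succ, List.getD_cons_succ]
    omega

/-- Adjacency lists of the graph on a list of labels given by a relation on labels. -/
def mkAdj (L : List (ℕ × ℕ × ℕ)) (R : ℕ × ℕ × ℕ → ℕ × ℕ × ℕ → Bool) : List (List ℕ) :=
  L.map fun a => (List.range L.length).filter fun i => R a (L.getD i (0, 0, 0))

theorem length_mkAdj (L : List (ℕ × ℕ × ℕ)) (R : ℕ × ℕ × ℕ → ℕ × ℕ × ℕ → Bool) :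
    (mkAdj L R).length = L.length := List.length_map _

theorem mem_mkAdj {L : List (ℕ × ℕ × ℕ)} {R : ℕ × ℕ × ℕ → ℕ × ℕ × ℕ → Bool} {i j : ℕ}
    (hi : i < L.length) (hj : j < L.length) :
    j ∈ (mkAdj L R).getD i [] ↔ R (L.getD i (0, 0, 0)) (L.getD j (0, 0, 0)) = true := by
  unfold mkAdj
  rw [List.getD_eq_getElem _ _ (by simpa using hi), List.getElem_map, List.mem_filter,
    List.getD_eq_getElem _ _ hi]
  simp [hj]

/-- The description of a blown-up graph. -/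
structure IsBlow {M : ℕ} (G : SimpleGraph (Fin M)) (φ : Fin M → ℕ × ℕ × ℕ) (t : ℕ)
    (len : ℕ → ℕ) (W : ℕ → ℕ → ℕ) (E : ℕ → ℕ → ℕ → Prop) : Prop where
  inj : Function.Injective φ
  mem : ∀ i, (φ i).1 < t ∧ (φ i).2.1 < len (φ i).1 ∧ (φ i).2.2 < W (φ i).1 (φ i).2.1
  surj : ∀ j v c, j < t → v < len j → c < W j v → ∃ i, φ i = (j, v, c)
  count : ∀ (Q : ℕ → ℕ → Prop) [∀ j v, Decidable (Q j v)],
    (univ.filter fun i => Q (φ i).1 (φ i).2.1).card =
      ∑ j ∈ range t, ∑ v ∈ range (len j), if Q j v then W j v else 0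
  adj : ∀ i i', G.Adj i i' ↔ i ≠ i' ∧ (φ i).1 = (φ i').1 ∧ ((φ i).2.1 = (φ i').2.1 ∨
    ((φ i).2.2 = 0 ∧ (φ i').2.2 = 0 ∧
      (E (φ i).1 (φ i).2.1 (φ i').2.1 ∨ E (φ i).1 (φ i').2.1 (φ i).2.1)))

/-- The relation on labels. -/
def relL (E : ℕ → ℕ → ℕ → Bool) (a b : ℕ × ℕ × ℕ) : Bool :=
  decide (a.1 = b.1 ∧ (a.2.1 = b.2.1 ∨ (a.2.2 = 0 ∧ b.2.2 = 0 ∧ E a.1 a.2.1 b.2.1 = true)))

theorem isBlow_mkAdj (t : ℕ) (len : ℕ → ℕ) (W : ℕ → ℕ → ℕ) (E : ℕ → ℕ → ℕ → Bool) :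
    IsBlow (graphOf (mkAdj (lab t len W) (relL E)))
      (fun i => (lab t len W).getD i (0, 0, 0)) t len W (fun j u v => E j u v = true) := by
  have hl := length_mkAdj (lab t len W) (relL E)
  have hlt : ∀ i : Fin (mkAdj (lab t len W) (relL E)).length, (i : ℕ) < (lab t len W).length :=
    fun i => hl ▸ i.2
  refine ⟨?_, ?_, ?_, ?_, ?_⟩
  · intro i i' h
    simp only [List.getD_eq_getElem _ _ (hlt i), List.getD_eq_getElem _ _ (hlt i')] at h
    exact Fin.ext ((nodup_lab t len W).getElem_inj_iff.1 h)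
  · intro i
    refine mem_lab.1 ?_
    rw [List.getD_eq_getElem _ _ (hlt i)]
    exact List.getElem_mem _
  · intro j v c hj hv hc
    obtain ⟨i, hi, h⟩ := List.getElem_of_mem (mem_lab.2 ⟨hj, hv, hc⟩ : (j, v, c) ∈ lab t len W)
    exact ⟨⟨i, hl ▸ hi⟩, by rw [List.getD_eq_getElem _ _ hi, h]⟩
  · intro Q _
    rw [← countP_lab, ← card_filter_getD (lab t len W) (0, 0, 0) _ hl]
    simp
  · intro i i'
    unfold graphOf
    rw [SimpleGraph.fromRel_adj, mem_mkAdj (hlt i) (hlt i'), mem_mkAdj (hlt i') (hlt i)]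
    simp only [relL, decide_eq_true_eq]
    constructor
    · rintro ⟨hne, ⟨h1, h2 | ⟨h2, h3, h4⟩⟩ | ⟨h1, h2 | ⟨h2, h3, h4⟩⟩⟩
      · exact ⟨hne, h1, Or.inl h2⟩
      · exact ⟨hne, h1, Or.inr ⟨h2, h3, Or.inl h4⟩⟩
      · exact ⟨hne, h1.symm, Or.inl h2.symm⟩
      · exact ⟨hne, h1.symm, Or.inr ⟨h3, h2, Or.inr (h1 ▸ h4)⟩⟩
    · rintro ⟨hne, h1, h2 | ⟨h2, h3, h4 | h4⟩⟩
      · exact ⟨hne, Or.inl ⟨h1, Or.inl h2⟩⟩
      · exact ⟨hne, Or.inl ⟨h1, Or.inr ⟨h2, h3, h4⟩⟩⟩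
      · exact ⟨hne, Or.inr ⟨h1.symm, Or.inr ⟨h3, h2, h1 ▸ h4⟩⟩⟩

namespace IsBlow

variable {M : ℕ} {G : SimpleGraph (Fin M)} {φ : Fin M → ℕ × ℕ × ℕ} {t : ℕ}
  {len : ℕ → ℕ} {W : ℕ → ℕ → ℕ} {E : ℕ → ℕ → ℕ → Prop}

theorem card_fiber (h : IsBlow G φ t len W E) {j v : ℕ} (hj : j < t) (hv : v < len j) :
    (univ.filter fun i => (φ i).1 = j ∧ (φ i).2.1 = v).card = W j v := by
  rw [h.count (fun j' v' => j' = j ∧ v' = v), sum_eq_single j, sum_eq_single v]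
  · simp
  · intro b _ hb; simp [hb]
  · intro hb; simp [hv] at hb
  · intro b _ hb; simp [hb]
  · intro hb; simp [hj] at hb

/-- A cheap cut splits no clique. -/
theorem unsplit (h : IsBlow G φ t len W E) {k : ℕ} (hW : ∀ j < t, ∀ v < len j, k + 2 ≤ W j v)
    {V₁ : Finset (Fin M)} (hc : cut G V₁ ≤ k) {i i' : Fin M} (h1 : (φ i).1 = (φ i').1)
    (h2 : (φ i).2.1 = (φ i').2.1) (hi : i ∈ V₁) : i' ∈ V₁ := by
  classical
  by_contra hi'
  have hcard := h.card_fiber (h.mem i).1 (h.mem i).2.1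
  have hW' := hW _ (h.mem i).1 _ (h.mem i).2.1
  set F := univ.filter fun z => (φ z).1 = (φ i).1 ∧ (φ z).2.1 = (φ i).2.1 with hF
  have hi'F : i' ∈ F := by simp [hF, h1, h2]
  have hle : ((F.erase i' : Finset (Fin M)) : Set (Fin M)).ncard ≤ cut G V₁ := by
    unfold cut
    refine Set.ncard_le_ncard_of_injOn (fun z => if z ∈ V₁ then (z, i') else (i, z)) ?_ ?_
      (Set.toFinite _)
    · intro z hz
      simp only [hF, coe_erase, coe_filter, mem_univ, true_and, Set.mem_sdiff, Set.mem_ofPred_eq,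
        Set.mem_singleton_iff] at hz
      by_cases hzV : z ∈ V₁
      · simp only [hzV, if_true, Set.mem_ofPred_eq, hi', not_false_eq_true, true_and]
        exact (h.adj _ _).2 ⟨hz.2, hz.1.1.trans h1, Or.inl (hz.1.2.trans h2)⟩
      · simp only [hzV, if_false, Set.mem_ofPred_eq, hi, not_false_eq_true, true_and]
        exact (h.adj _ _).2 ⟨fun e => hzV (e ▸ hi), hz.1.1.symm, Or.inl hz.1.2.symm⟩
    · intro z hz z' hz' he
      simp only [coe_erase, Set.mem_sdiff, Set.mem_singleton_iff] at hz hz'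
      by_cases hzV : z ∈ V₁ <;> by_cases hzV' : z' ∈ V₁ <;>
        simp only [hzV, hzV', if_true, if_false, Prod.mk.injEq] at he
      · exact he.1
      · exact absurd he.2.symm hz'.2
      · exact absurd he.2 hz.2
      · exact he.2
  rw [Set.ncard_coe_finset, card_erase_of_mem hi'F, hcard] at hle
  omega

/-- The base pairs cut inside group `j`. -/
def cutSet (E : ℕ → ℕ → Prop) (X : ℕ → Prop) : Set (ℕ × ℕ) :=
  {p | X p.1 ∧ ¬ X p.2 ∧ (E p.1 p.2 ∨ E p.2 p.1)}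

theorem cutSet_le (h : IsBlow G φ t len W E) (X : ℕ → ℕ → Prop) {V₁ : Finset (Fin M)}
    (hV : ∀ i, i ∈ V₁ ↔ X (φ i).1 (φ i).2.1) {j : ℕ} (hj : j < t)
    (hE : ∀ u v, E j u v → u < len j ∧ v < len j) (hW : ∀ v < len j, 0 < W j v) :
    (cutSet (E j) (X j)).ncard ≤ cut G V₁ := by
  unfold cut
  refine le_trans (Set.ncard_le_ncard ?_ (Set.toFinite _)) (Set.ncard_image_le
    (f := fun p : Fin M × Fin M => ((φ p.1).2.1, (φ p.2).2.1)) (Set.toFinite _))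
  rintro ⟨u, v⟩ ⟨hu, hv, huv⟩
  have hlt : u < len j ∧ v < len j := huv.elim (hE u v) (fun e => (hE v u e).symm)
  obtain ⟨i, hi⟩ := h.surj j u 0 hj hlt.1 (hW u hlt.1)
  obtain ⟨i', hi'⟩ := h.surj j v 0 hj hlt.2 (hW v hlt.2)
  have h1 : i ∈ V₁ := by rw [hV, hi]; exact hu
  have h2 : i' ∉ V₁ := by rw [hV, hi']; exact hv
  refine ⟨(i, i'), ⟨h1, h2, (h.adj _ _).2 ⟨fun (e : i = i') => h2 (e ▸ h1), ?_, Or.inr ?_⟩⟩, ?_⟩
  · simp only [hi, hi']
  · simp only [hi, hi', true_and]; exact huv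
  · simp only [hi, hi']

theorem cut_le (h : IsBlow G φ t len W E) (X : ℕ → ℕ → Prop) {V₁ : Finset (Fin M)}
    (hV : ∀ i, i ∈ V₁ ↔ X (φ i).1 (φ i).2.1) (j : ℕ)
    (hX : ∀ j' u v, j' ≠ j → X j' u → ¬ X j' v → ¬ (E j' u v ∨ E j' v u))
    (hfin : (cutSet (E j) (X j)).Finite) :
    cut G V₁ ≤ (cutSet (E j) (X j)).ncard := by
  unfold cut
  have key : ∀ i i', i ∈ V₁ → i' ∉ V₁ → G.Adj i i' → (φ i).1 = j ∧ (φ i').1 = j ∧
      (φ i).2.2 = 0 ∧ (φ i').2.2 = 0 ∧ ((φ i).2.1, (φ i').2.1) ∈ cutSet (E j) (X j) := by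
    intro i i' hi hi' ha
    rw [hV] at hi hi'
    obtain ⟨-, h1, h2 | ⟨h2, h3, h4⟩⟩ := (h.adj _ _).1 ha
    · rw [← h1, ← h2] at hi'; exact absurd hi hi'
    · rw [← h1] at hi'
      have hj : (φ i).1 = j := by
        by_contra hne
        exact hX _ _ _ hne hi hi' h4
      refine ⟨hj, h1 ▸ hj, h2, h3, ?_⟩
      rw [hj] at hi hi' h4
      exact ⟨hi, hi', h4⟩
  refine Set.ncard_le_ncard_of_injOn (fun p : Fin M × Fin M => ((φ p.1).2.1, (φ p.2).2.1))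
    ?_ ?_ hfin
  · rintro ⟨i, i'⟩ ⟨hi, hi', ha⟩
    exact (key i i' hi hi' ha).2.2.2.2
  · rintro ⟨i, i'⟩ ⟨hi, hi', ha⟩ ⟨z, z'⟩ ⟨hz, hz', hb⟩ he
    obtain ⟨a1, a2, a3, a4, -⟩ := key i i' hi hi' ha
    obtain ⟨b1, b2, b3, b4, -⟩ := key z z' hz hz' hb
    simp only [Prod.mk.injEq] at he ⊢
    exact ⟨h.inj (Prod.ext (a1.trans b1.symm) (Prod.ext he.1 (a3.trans b3.symm))),
      h.inj (Prod.ext (a2.trans b2.symm) (Prod.ext he.2 (a4.trans b4.symm)))⟩

end IsBlow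

/-- Arcs of adjacency lists. -/
def arc (A : List (List ℕ)) (u v : ℕ) : Bool :=
  decide (u < A.length ∧ v < A.length ∧ v ∈ A.getD u [])

theorem cutSet_eq_image (A : List (List ℕ)) (T : Finset (Fin A.length)) (X : ℕ → Prop)
    (hX : ∀ v : Fin A.length, v ∈ T ↔ X v) :
    IsBlow.cutSet (fun u v => arc A u v = true) X =
      (fun p : Fin A.length × Fin A.length => ((p.1 : ℕ), (p.2 : ℕ))) ''
        {p | p.1 ∈ T ∧ p.2 ∉ T ∧ (graphOf A).Adj p.1 p.2} := by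
  ext ⟨u, v⟩
  simp only [IsBlow.cutSet, arc, decide_eq_true_eq, Set.mem_ofPred_eq, Set.mem_image,
    Prod.mk.injEq, graphOf, SimpleGraph.fromRel_adj, hX]
  constructor
  · rintro ⟨hu, hv, h⟩
    have hlt : u < A.length ∧ v < A.length := by tauto
    refine ⟨(⟨u, hlt.1⟩, ⟨v, hlt.2⟩), ⟨hu, hv, ?_, ?_⟩, rfl, rfl⟩
    · intro e
      simp only [Fin.mk.injEq] at e
      exact hv (e ▸ hu)
    · tauto
  · rintro ⟨⟨u', v'⟩, ⟨hu, hv, -, h⟩, rfl, rfl⟩
    refine ⟨hu, hv, ?_⟩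
    have := u'.2
    have := v'.2
    tauto

theorem ncard_cutSet (A : List (List ℕ)) (T : Finset (Fin A.length)) (X : ℕ → Prop)
    (hX : ∀ v : Fin A.length, v ∈ T ↔ X v) :
    (IsBlow.cutSet (fun u v => arc A u v = true) X).ncard = cut (graphOf A) T := by
  rw [cutSet_eq_image A T X hX, Set.ncard_image_of_injective]
  · rfl
  · rintro ⟨a, b⟩ ⟨c, d⟩ h
    simp only [Prod.mk.injEq] at h ⊢
    exact ⟨Fin.ext h.1, Fin.ext h.2⟩

theorem finite_cutSet (A : List (List ℕ)) (T : Finset (Fin A.length)) (X : ℕ → Prop)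
    (hX : ∀ v : Fin A.length, v ∈ T ↔ X v) :
    (IsBlow.cutSet (fun u v => arc A u v = true) X).Finite := by
  rw [cutSet_eq_image A T X hX]
  exact (Set.toFinite _).image _

end Pool.Agent.Lib.MP_7de5c3_lc
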