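import Pool.Agent.Lib.MP_7de5c3_lc.Blow
import Pool.Agent.Lib.MP_7de5c3_lc.Arith

/-! The gap-preserving OR-composition of fixed-size cut instances into one bisection instance. -/

namespace Pool.Agent.Lib.MP_7de5c3_lc

open Finset

/-- Instance number `j`. -/
def gI (l : List GapInst) (j : ℕ) : GapInst := l.getD j ([], 0, 0)
/-- Its number of vertices. -/
def nn (l : List GapInst) (j : ℕ) : ℕ := (gI l j).1.length
/-- Total number of base vertices. -/
def NN (l : List GapInst) : ℕ := ((List.range l.length).map fun j => nn l j + 1).sum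
/-- The capped target size. -/
def ss (l : List GapInst) (j : ℕ) : ℕ := min (gI l j).2.1 (nn l j + 1)
/-- The base of the digits. -/
def BB (l : List GapInst) (k : ℕ) : ℕ := l.length * l.length * NN l + k + 3
/-- The weight of the vertices of instance `j`. -/
def ww (l : List GapInst) (k j : ℕ) : ℕ :=
  BB l k * BB l k + BB l k * min j l.length + min j l.length * min j l.length
/-- The target weight. -/
def ZZ (l : List GapInst) (k : ℕ) : ℕ :=
  2 * (NN l * (BB l k * BB l k + BB l k * l.length + l.length * l.length)) + k + 3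
/-- Weights of instance vertices and selectors. -/
def W0 (l : List GapInst) (k j v : ℕ) : ℕ :=
  if v < nn l j then ww l k j else ZZ l k - ww l k j * ss l j
/-- Total weight of instance vertices and selectors. -/
def rest (l : List GapInst) (k : ℕ) : ℕ :=
  (lab l.length (fun j => nn l j + 1) (W0 l k)).length
/-- Number of base vertices in group `j`; the last group holds two anchors. -/
def ln (l : List GapInst) (j : ℕ) : ℕ := if j < l.length then nn l j + 1 else 2
/-- All weights. -/
def WW (l : List GapInst) (k j v : ℕ) : ℕ :=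
  if j < l.length then W0 l k j v else if v = 0 then rest l k + k + 3 else 2 * ZZ l k + k + 3
/-- The composed graph. -/
def compose (l : List GapInst) (k : ℕ) : List (List ℕ) :=
  mkAdj (lab (l.length + 1) (ln l) (WW l k)) (relL fun j u v => arc (gI l j).1 u v)

theorem NN_eq (l : List GapInst) : NN l = ∑ j ∈ range l.length, (nn l j + 1) := sum_map_range _ _

theorem ss_le (l : List GapInst) {j : ℕ} (hj : j < l.length) : ss l j ≤ NN l := by
  rw [NN_eq]
  exact (min_le_right _ _).trans
    (single_le_sum (f := fun j => nn l j + 1) (fun _ _ => Nat.zero_le _) (mem_range.2 hj))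

theorem ww_eq (l : List GapInst) (k : ℕ) {j : ℕ} (hj : j < l.length) :
    ww l k j = BB l k * BB l k + BB l k * j + j * j := by
  unfold ww; rw [min_eq_left hj.le]

theorem ww_mul_le (l : List GapInst) (k : ℕ) {j : ℕ} (hj : j < l.length) :
    ww l k j * ss l j ≤ NN l * (BB l k * BB l k + BB l k * l.length + l.length * l.length) := by
  rw [mul_comm, ww_eq l k hj]
  refine Nat.mul_le_mul (ss_le l hj) ?_
  have := Nat.mul_le_mul_left (BB l k) hj.le
  have := Nat.mul_le_mul hj.le hj.le
  omega

theorem le_WW (l : List GapInst) (k j v : ℕ) : k + 2 ≤ WW l k j v := by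
  unfold WW W0
  split_ifs with h1 h2 h3
  · rw [ww_eq l k h1]
    have := Nat.le_mul_self (BB l k)
    have : k + 3 ≤ BB l k := by unfold BB; omega
    omega
  · have := ww_mul_le l k h1
    unfold ZZ
    omega
  · omega
  · omega

/-- Weight of the non-anchor part selected by `X`. -/
def part (l : List GapInst) (k : ℕ) (X : ℕ → ℕ → Prop) [∀ j v, Decidable (X j v)] : ℕ :=
  ∑ j ∈ range l.length, ∑ v ∈ range (nn l j + 1), if X j v then W0 l k j v else 0

theorem part_add (l : List GapInst) (k : ℕ) (X : ℕ → ℕ → Prop) [∀ j v, Decidable (X j v)] :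
    part l k X + part l k (fun j v => ¬ X j v) = rest l k := by
  unfold part rest
  rw [length_lab, ← sum_add_distrib]
  refine sum_congr rfl fun j _ => ?_
  rw [← sum_add_distrib]
  refine sum_congr rfl fun v _ => ?_
  by_cases h : X j v <;> simp [h]

theorem part_eq (l : List GapInst) (k : ℕ) (X : ℕ → ℕ → Prop) [∀ j v, Decidable (X j v)] :
    part l k X = ∑ j ∈ range l.length, ((BB l k * BB l k + BB l k * j + j * j) *
      ((range (nn l j)).filter (X j)).card +
      if X j (nn l j) then ZZ l k - (BB l k * BB l k + BB l k * j + j * j) * ss l j else 0) := by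
  unfold part
  refine sum_congr rfl fun j hj => ?_
  rw [sum_range_succ, ← ww_eq l k (mem_range.1 hj), card_filter, mul_sum]
  congr 1
  · refine sum_congr rfl fun v hv => ?_
    simp [W0, mem_range.1 hv]
  · simp [W0]

theorem sum_WW (l : List GapInst) (k : ℕ) (X : ℕ → ℕ → Prop) [∀ j v, Decidable (X j v)] :
    (∑ j ∈ range (l.length + 1), ∑ v ∈ range (ln l j), if X j v then WW l k j v else 0) =
      part l k X + ((if X l.length 0 then rest l k + k + 3 else 0) +
        if X l.length 1 then 2 * ZZ l k + k + 3 else 0) := by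
  rw [sum_range_succ]
  congr 1
  · refine sum_congr rfl fun j hj => ?_
    simp [ln, WW, mem_range.1 hj]
  · simp [ln, WW, sum_range_succ]

theorem card_filter_range {n : ℕ} (P : ℕ → Prop) [DecidablePred P] :
    (univ.filter fun v : Fin n => P v).card = ((range n).filter P).card := by
  rw [card_filter, card_filter, Fin.sum_univ_eq_sum_range (fun v => if P v then 1 else 0)]

section

variable {l : List GapInst} {k M : ℕ} {G : SimpleGraph (Fin M)} {φ : Fin M → ℕ × ℕ × ℕ}

theorem card_side (h : IsBlow G φ (l.length + 1) (ln l) (WW l k)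
      (fun j u v => arc (gI l j).1 u v = true))
    (X : ℕ → ℕ → Prop) [∀ j v, Decidable (X j v)] {V₁ : Finset (Fin M)}
    (hV : ∀ i, i ∈ V₁ ↔ X (φ i).1 (φ i).2.1) :
    V₁.card = part l k X + ((if X l.length 0 then rest l k + k + 3 else 0) +
        if X l.length 1 then 2 * ZZ l k + k + 3 else 0) := by
  rw [← sum_WW, ← h.count]
  congr 1
  ext i
  simp [hV]

theorem blow_no (h : IsBlow G φ (l.length + 1) (ln l) (WW l k)
      (fun j u v => arc (gI l j).1 u v = true))
    {V₁ : Finset (Fin M)} (hb : Balanced V₁) (hc : cut G V₁ ≤ k) :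
    ∃ j < l.length, ∃ T : Finset (Fin (gI l j).1.length), T.card = (gI l j).2.1 ∧
      cut (graphOf (gI l j).1) T ≤ cut G V₁ := by
  classical
  set X : ℕ → ℕ → Prop := fun j v => ∃ i ∈ V₁, (φ i).1 = j ∧ (φ i).2.1 = v with hX
  have hV : ∀ i, i ∈ V₁ ↔ X (φ i).1 (φ i).2.1 := fun i =>
    ⟨fun hi => ⟨i, hi, rfl, rfl⟩, fun ⟨i', hi', h1, h2⟩ =>
      h.unsplit (fun j _ v _ => le_WW l k j v) hc h1 h2 hi'⟩
  have hV' : ∀ i, i ∈ V₁ᶜ ↔ ¬ X (φ i).1 (φ i).2.1 := fun i => by rw [mem_compl, hV]
  have h1 := card_side h X hV
  have h2 := card_side h (fun j v => ¬ X j v) hV'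
  have h3 := part_add l k X
  obtain ⟨hb1, hb2⟩ := hb
  have key : ∀ (Y : ℕ → ℕ → Prop) [∀ j v, Decidable (Y j v)], part l k Y = ZZ l k →
      ∃ j < l.length, ((range (nn l j)).filter (Y j)).card = (gI l j).2.1 := by
    intro Y _ hY
    rw [part_eq] at hY
    obtain ⟨j, hj, he⟩ := select (N := NN l) (fun j => ((range (nn l j)).filter (Y j)).card)
      (ss l) (fun j => Y j (nn l j)) (by
        rw [NN_eq]
        exact sum_le_sum fun j _ => (card_filter_le _ _).trans (by simp))
      (fun j hj => ss_le l hj) (by unfold BB; omega) (by unfold ZZ; omega) hY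
    refine ⟨j, hj, ?_⟩
    have : ((range (nn l j)).filter (Y j)).card ≤ nn l j := (card_filter_le _ _).trans (by simp)
    unfold ss at he
    omega
  have hE : ∀ j < l.length, ∀ u v, arc (gI l j).1 u v = true → u < ln l j ∧ v < ln l j := by
    intro j hj u v huv
    simp only [arc, decide_eq_true_eq] at huv
    simp only [ln, hj, if_true, nn]
    omega
  have hor : part l k X = ZZ l k ∨ part l k (fun j v => ¬ X j v) = ZZ l k := by
    by_cases a0 : X l.length 0 <;> by_cases a1 : X l.length 1 <;>
      simp only [a0, a1, if_true, if_false, not_true_eq_false, not_false_eq_true] at h1 h2 <;>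
      omega
  rcases hor with hp | hp
  · obtain ⟨j, hj, he⟩ := key X hp
    refine ⟨j, hj, univ.filter fun v => X j v, (card_filter_range _).trans he, ?_⟩
    rw [← ncard_cutSet _ _ (X j) (by simp)]
    exact h.cutSet_le X hV (by omega) (hE j hj) (fun v _ => by have := le_WW l k j v; omega)
  · obtain ⟨j, hj, he⟩ := key _ hp
    refine ⟨j, hj, univ.filter fun v => ¬ X j v, (card_filter_range (fun v => ¬ X j v)).trans he,
      ?_⟩
    rw [← ncard_cutSet _ _ (fun v => ¬ X j v) (by simp), ← cut_compl G V₁]
    exact h.cutSet_le (fun j v => ¬ X j v) hV' (by omega) (hE j hj)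
      (fun v _ => by have := le_WW l k j v; omega)

theorem blow_yes (h : IsBlow G φ (l.length + 1) (ln l) (WW l k)
      (fun j u v => arc (gI l j).1 u v = true))
    {j : ℕ} (hj : j < l.length) (T : Finset (Fin (gI l j).1.length))
    (hT : T.card = (gI l j).2.1) :
    ∃ V₁ : Finset (Fin M), Balanced V₁ ∧ cut G V₁ ≤ cut (graphOf (gI l j).1) T := by
  classical
  set X : ℕ → ℕ → Prop := fun j' v => (j' = l.length ∧ v = 0) ∨
    (j' = j ∧ (v = nn l j ∨ ∃ u ∈ T, (u : ℕ) = v)) with hX
  have hXT : ∀ v : Fin (gI l j).1.length, v ∈ T ↔ X j v := by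
    intro v
    have hv : (v : ℕ) ≠ nn l j := v.2.ne
    simp [hX, hj.ne, hv, Fin.val_inj]
  have hV : ∀ i, i ∈ univ.filter (fun i => X (φ i).1 (φ i).2.1) ↔ X (φ i).1 (φ i).2.1 := by simp
  refine ⟨univ.filter fun i => X (φ i).1 (φ i).2.1, ?_, ?_⟩
  · have h1 := card_side h X hV
    have h2 := card_side h (fun j v => ¬ X j v) (V₁ := (univ.filter fun i => X (φ i).1 (φ i).2.1)ᶜ)
      (fun i => by rw [mem_compl, hV])
    have h3 := part_add l k X
    have a0 : X l.length 0 := Or.inl ⟨rfl, rfl⟩
    have a1 : ¬ X l.length 1 := by simp [hX, hj.ne']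
    have hp : part l k X = ZZ l k := by
      rw [part_eq, sum_eq_single j]
      · have e1 : ((range (nn l j)).filter (X j)).card = ss l j := by
          have : univ.filter (fun v : Fin (gI l j).1.length => X j v) = T := by
            ext v; simp [hXT]
          refine (card_filter_range (n := (gI l j).1.length) (X j)).symm.trans ?_
          rw [this, hT]
          have := card_le_univ T
          rw [Fintype.card_fin, hT] at this
          unfold ss nn
          omega
        have e2 : X j (nn l j) := Or.inr ⟨rfl, Or.inl rfl⟩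
        rw [e1, if_pos e2, ← ww_eq l k hj]
        have := ww_mul_le l k hj
        unfold ZZ
        omega
      · intro i hi hne
        have hi' := (mem_range.1 hi).ne
        simp [hX, hne, hi']
      · intro hn
        exact absurd (mem_range.2 hj) hn
    simp only [a0, a1, if_true, if_false, not_true_eq_false, not_false_eq_true] at h1 h2
    constructor <;> omega
  · rw [← ncard_cutSet _ T (X j) hXT]
    refine h.cut_le X hV j ?_ (finite_cutSet _ T (X j) hXT)
    intro j' u v hne hu _
    have : j' = l.length := by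
      rcases hu with hu | hu
      · exact hu.1
      · exact absurd hu.1 hne
    subst this
    simp [arc, gI]

end

theorem isBlow_compose (l : List GapInst) (k : ℕ) :
    IsBlow (graphOf (compose l k))
      (fun i => (lab (l.length + 1) (ln l) (WW l k)).getD i (0, 0, 0)) (l.length + 1) (ln l)
      (WW l k) (fun j u v => arc (gI l j).1 u v = true) :=
  isBlow_mkAdj _ _ _ _

theorem compose_yes {l : List GapInst} (k : ℕ) {x : GapInst} (hx : x ∈ l)
    (T : Finset (Fin x.1.length)) (hT : T.card = x.2.1) :
    ∃ V₁ : Finset (Fin (compose l k).length), Balanced V₁ ∧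
      cut (graphOf (compose l k)) V₁ ≤ cut (graphOf x.1) T := by
  obtain ⟨j, hj, e⟩ := List.getElem_of_mem hx
  have e' : gI l j = x := by rw [gI, List.getD_eq_getElem _ _ hj, e]
  subst e'
  exact blow_yes (isBlow_compose l k) hj T hT

theorem compose_no {l : List GapInst} {k : ℕ} {V₁ : Finset (Fin (compose l k).length)}
    (hb : Balanced V₁) (hc : cut (graphOf (compose l k)) V₁ ≤ k) :
    ∃ x ∈ l, ∃ T : Finset (Fin x.1.length), T.card = x.2.1 ∧
      cut (graphOf x.1) T ≤ cut (graphOf (compose l k)) V₁ := by
  obtain ⟨j, hj, T, hT, h⟩ := blow_no (isBlow_compose l k) hb hc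
  refine ⟨gI l j, ?_, T, hT, h⟩
  rw [gI, List.getD_eq_getElem _ _ hj]
  exact List.getElem_mem _

end Pool.Agent.Lib.MP_7de5c3_lc
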