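import Pool.Agent.Lib.MP_7de5c3_lc.Defs

/-! Basic facts on cuts, bisecting sets, costs and ratios. -/

namespace Pool.Agent.Lib.MP_7de5c3_lc

open scoped ENNReal

variable {n : ℕ}

/-- The two parts differ in size by at most one. -/
def Balanced (V₁ : Finset (Fin n)) : Prop := V₁.card ≤ V₁ᶜ.card + 1 ∧ V₁ᶜ.card ≤ V₁.card + 1

theorem cut_compl (G : SimpleGraph (Fin n)) (T : Finset (Fin n)) : cut G Tᶜ = cut G T := by
  unfold cut
  rw [← Set.ncard_image_of_injective _ Prod.swap_injective]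
  congr 1
  ext ⟨u, v⟩
  simp only [Finset.mem_compl, not_not, Set.mem_image, Set.mem_ofPred_eq, Prod.exists,
    Prod.swap_prod_mk, Prod.mk.injEq]
  constructor
  · rintro ⟨a, b, ⟨h1, h2, h3⟩, rfl, rfl⟩
    exact ⟨h2, h1, h3.symm⟩
  · rintro ⟨h1, h2, h3⟩
    exact ⟨v, u, ⟨h2, h1, h3.symm⟩, rfl, rfl⟩

theorem cut_le_sq (G : SimpleGraph (Fin n)) (T : Finset (Fin n)) : cut G T ≤ n * n := by
  unfold cut
  refine (Set.ncard_le_ncard (Set.subset_univ _) (Set.toFinite _)).trans ?_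
  simp [Set.ncard_univ]

theorem cut_le_of_sep {G : SimpleGraph (Fin n)} {S : Set (Sym2 (Fin n))} {V₁ : Finset (Fin n)}
    (h : ∀ u ∈ V₁, ∀ v ∉ V₁, ¬ (G.deleteEdges S).Adj u v) : cut G V₁ ≤ S.ncard := by
  unfold cut
  refine Set.ncard_le_ncard_of_injOn (fun p => s(p.1, p.2)) ?_ ?_ (Set.toFinite _)
  · rintro ⟨u, v⟩ ⟨hu, hv, huv⟩
    have := h u hu v hv
    rw [SimpleGraph.deleteEdges_adj] at this
    by_contra hc
    exact this ⟨huv, hc⟩
  · rintro ⟨u, v⟩ ⟨hu, hv, -⟩ ⟨u', v'⟩ ⟨hu', hv', -⟩ he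
    simp only [Sym2.eq_iff] at he
    rcases he with ⟨rfl, rfl⟩ | ⟨rfl, rfl⟩
    · rfl
    · exact absurd hu hv'

theorem exists_bisecting {G : SimpleGraph (Fin n)} {V₁ : Finset (Fin n)} (hb : Balanced V₁) :
    ∃ S ⊆ G.edgeSet, Bisecting G S ∧ S.ncard ≤ cut G V₁ := by
  refine ⟨(fun p : Fin n × Fin n => s(p.1, p.2)) ''
    {p : Fin n × Fin n | p.1 ∈ V₁ ∧ p.2 ∉ V₁ ∧ G.Adj p.1 p.2}, ?_, ⟨V₁, hb.1, hb.2, ?_⟩,
    Set.ncard_image_le (Set.toFinite _)⟩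
  · rintro _ ⟨⟨u, v⟩, ⟨-, -, huv⟩, rfl⟩
    exact huv
  · intro u hu v hv h
    rw [SimpleGraph.deleteEdges_adj] at h
    exact h.2 ⟨(u, v), ⟨hu, hv, h.1⟩, rfl⟩

theorem optCost_le_cost {G : SimpleGraph (Fin n)} {k : ℕ} {S : Set (Sym2 (Fin n))}
    (hS : S ⊆ G.edgeSet) : optCost G k ≤ cost G k S :=
  iInf₂_le S hS

theorem optCost_le_cut {G : SimpleGraph (Fin n)} (k : ℕ) {V₁ : Finset (Fin n)}
    (hb : Balanced V₁) : optCost G k ≤ (cut G V₁ : ℝ≥0∞) := by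
  obtain ⟨S, hS, hbis, hc⟩ := exists_bisecting (G := G) hb
  refine (optCost_le_cost hS).trans ?_
  unfold cost
  rw [if_pos hbis]
  exact_mod_cast (min_le_left _ _).trans hc

theorem exists_balanced (n : ℕ) : ∃ V₁ : Finset (Fin n), Balanced V₁ := by
  obtain ⟨V₁, -, h⟩ := Finset.exists_subset_card_eq (s := (Finset.univ : Finset (Fin n)))
    (n := n / 2) (by simp; omega)
  refine ⟨V₁, ?_, ?_⟩ <;> rw [Finset.card_compl, h, Fintype.card_fin] <;> omega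

theorem optCost_ne_top (G : SimpleGraph (Fin n)) (k : ℕ) : optCost G k ≠ ⊤ := by
  obtain ⟨V₁, hb⟩ := exists_balanced n
  exact ne_top_of_le_ne_top (ENNReal.natCast_ne_top _) (optCost_le_cut k hb)

theorem exists_cost_eq_optCost (G : SimpleGraph (Fin n)) (k : ℕ) :
    ∃ S ⊆ G.edgeSet, cost G k S = optCost G k := by
  obtain ⟨S, hS, hmin⟩ := Set.exists_min_image {S : Set (Sym2 (Fin n)) | S ⊆ G.edgeSet}
    (cost G k) (Set.toFinite _) ⟨∅, Set.empty_subset _⟩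
  exact ⟨S, hS, le_antisymm (le_iInf₂ fun S' hS' => hmin S' hS') (optCost_le_cost hS)⟩

theorem exists_edgeList (G : SimpleGraph (Fin n)) {S : Set (Sym2 (Fin n))} (hS : S ⊆ G.edgeSet) :
    ∃ L : List (ℕ × ℕ), IsEdgeList G L ∧ edgesOf G L = S ∧ L.length ≤ n * n ∧
      ∀ p ∈ L, p.1 < n ∧ p.2 < n := by
  classical
  refine ⟨((List.finRange n ×ˢ List.finRange n).filter (fun p => decide (s(p.1, p.2) ∈ S))).map
    (fun p => ((p.1 : ℕ), (p.2 : ℕ))), ?_, ?_, ?_, ?_⟩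
  · intro p hp
    simp only [List.mem_map, List.mem_filter, decide_eq_true_eq] at hp
    obtain ⟨q, ⟨-, hq⟩, rfl⟩ := hp
    exact ⟨q.1, q.2, hS hq, rfl⟩
  · ext e
    constructor
    · rintro ⟨u, v, rfl, -, h⟩
      simp only [List.mem_map, List.mem_filter, decide_eq_true_eq, Prod.mk.injEq] at h
      obtain ⟨q, ⟨-, hq⟩, h1, h2⟩ := h
      rwa [← Fin.ext h1, ← Fin.ext h2]
    · intro he
      induction e using Sym2.ind with
      | _ u v =>
        refine ⟨u, v, rfl, hS he, ?_⟩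
        simp only [List.mem_map, List.mem_filter, decide_eq_true_eq]
        exact ⟨(u, v), ⟨by simp [List.mem_product], he⟩, rfl⟩
  · rw [List.length_map]
    refine (List.length_filter_le _ _).trans ?_
    simp [List.length_product]
  · intro p hp
    simp only [List.mem_map] at hp
    obtain ⟨q, -, rfl⟩ := hp
    exact ⟨q.1.2, q.2.2⟩

theorem ratio_self {b : ℝ≥0∞} (hb : b ≠ ⊤) : ratio b b = 1 := by
  unfold ratio
  split_ifs with h
  · rfl
  · exact ENNReal.div_self (fun h0 => h ⟨h0, h0⟩) hb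

theorem le_of_ratio_le {a b c : ℝ≥0∞} (hc : c ≠ ⊤) (hb : b ≠ ⊤) (h : ratio a b ≤ c) :
    a ≤ c * b := by
  unfold ratio at h
  split_ifs at h with h0
  · rw [h0.1]; exact bot_le
  · by_cases hb0 : b = 0
    · have ha : a ≠ 0 := fun ha => h0 ⟨ha, hb0⟩
      rw [hb0, ENNReal.div_zero ha, top_le_iff] at h
      exact absurd h hc
    · exact (ENNReal.div_le_iff hb0 hb).1 h

theorem good_of_cost_le {G : SimpleGraph (Fin n)} {k r : ℕ} {S : Set (Sym2 (Fin n))} {α : ℝ}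
    (hα : 0 ≤ α) (hk : ⌊α * r⌋₊ ≤ k) (h : cost G k S ≤ ENNReal.ofReal α * (r : ℝ≥0∞)) :
    Bisecting G S ∧ S.ncard ≤ ⌊α * r⌋₊ := by
  have hr : ENNReal.ofReal α * (r : ℝ≥0∞) = ENNReal.ofReal (α * r) := by
    rw [ENNReal.ofReal_mul hα, ENNReal.ofReal_natCast]
  rw [hr] at h
  unfold cost at h
  split_ifs at h with hb
  · refine ⟨hb, ?_⟩
    rw [← ENNReal.ofReal_natCast, ENNReal.ofReal_le_ofReal_iff (by positivity)] at h
    have := Nat.le_floor h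
    omega
  · exact absurd (top_le_iff.1 h) ENNReal.ofReal_ne_top

end Pool.Agent.Lib.MP_7de5c3_lc
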