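import Pool.Agent.Lib.MP_7de5c3_lc.Compose

/-! A test for small bisecting sets: component sizes and subset sums. -/

namespace Pool.Agent.Lib.MP_7de5c3_lc

open Finset

/-- Adjacency as a Boolean function on vertex numbers. -/
def adjB (A : List (List ℕ)) (u v : ℕ) : Bool :=
  decide (u ≠ v ∧ (arc A u v = true ∨ arc A v u = true))

theorem adj_iff {A : List (List ℕ)} (u v : Fin A.length) :
    (graphOf A).Adj u v ↔ adjB A u v = true := by
  simp [graphOf, adjB, arc, Fin.ext_iff]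

theorem adjB_lt {A : List (List ℕ)} {u v : ℕ} (h : adjB A u v = true) :
    u < A.length ∧ v < A.length := by
  simp only [adjB, arc, decide_eq_true_eq] at h
  tauto

theorem adjB_symm {A : List (List ℕ)} {u v : ℕ} (h : adjB A u v = true) : adjB A v u = true := by
  simp only [adjB, decide_eq_true_eq] at h ⊢
  tauto

/-- All pairs of vertex numbers. -/
def pairs (n : ℕ) : List (ℕ × ℕ) := List.range n ×ˢ List.range n

theorem mem_pairs {n : ℕ} {p : ℕ × ℕ} : p ∈ pairs n ↔ p.1 < n ∧ p.2 < n := by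
  obtain ⟨a, b⟩ := p
  simp [pairs, List.mem_product]

theorem nodup_pairs (n : ℕ) : (pairs n).Nodup := List.nodup_range.product List.nodup_range

/-- The number of listed edges. -/
def cnt (A : List (List ℕ)) (S : List (ℕ × ℕ)) : ℕ :=
  (pairs A.length).countP fun p =>
    decide (p.1 < p.2 ∧ adjB A p.1 p.2 = true ∧ ((p.1, p.2) ∈ S ∨ (p.2, p.1) ∈ S))

theorem mem_edgesOf {n : ℕ} {G : SimpleGraph (Fin n)} {S : List (ℕ × ℕ)} {u v : Fin n} :
    s(u, v) ∈ edgesOf G S ↔
      G.Adj u v ∧ (((u : ℕ), (v : ℕ)) ∈ S ∨ ((v : ℕ), (u : ℕ)) ∈ S) := by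
  constructor
  · rintro ⟨a, b, he, ha, hS⟩
    rcases Sym2.eq_iff.1 he with ⟨rfl, rfl⟩ | ⟨rfl, rfl⟩
    · exact ⟨ha, Or.inl hS⟩
    · exact ⟨ha.symm, Or.inr hS⟩
  · rintro ⟨ha, hS | hS⟩
    · exact ⟨u, v, rfl, ha, hS⟩
    · exact ⟨v, u, Sym2.eq_swap, ha.symm, hS⟩

theorem cnt_eq (A : List (List ℕ)) (S : List (ℕ × ℕ)) :
    cnt A S = (edgesOf (graphOf A) S).ncard := by
  set P : Set (Fin A.length × Fin A.length) := {p | p.1 < p.2 ∧ (graphOf A).Adj p.1 p.2 ∧
    (((p.1 : ℕ), (p.2 : ℕ)) ∈ S ∨ ((p.2 : ℕ), (p.1 : ℕ)) ∈ S)} with hP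
  have h1 : edgesOf (graphOf A) S = (fun p => s(p.1, p.2)) '' P := by
    ext e
    induction e using Sym2.ind with
    | _ u v =>
      rw [mem_edgesOf]
      constructor
      · rintro ⟨ha, hS⟩
        rcases lt_or_gt_of_ne ha.ne with h | h
        · exact ⟨(u, v), ⟨h, ha, hS⟩, rfl⟩
        · exact ⟨(v, u), ⟨h, ha.symm, hS.symm⟩, Sym2.eq_swap⟩
      · rintro ⟨⟨a, b⟩, ⟨-, ha, hS⟩, he⟩
        rcases Sym2.eq_iff.1 he with ⟨rfl, rfl⟩ | ⟨rfl, rfl⟩
        · exact ⟨ha, hS⟩
        · exact ⟨ha.symm, hS.symm⟩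
  have h2 : Set.InjOn (fun p : Fin A.length × Fin A.length => s(p.1, p.2)) P := by
    rintro ⟨a, b⟩ ⟨hab, -⟩ ⟨c, d⟩ ⟨hcd, -⟩ he
    rcases Sym2.eq_iff.1 he with ⟨h1, h2⟩ | ⟨h1, h2⟩
    · exact Prod.ext h1 h2
    · simp only at h1 h2 hab hcd
      subst h1 h2
      exact absurd hab hcd.not_gt
  have h3 : Function.Injective
      (fun p : Fin A.length × Fin A.length => ((p.1 : ℕ), (p.2 : ℕ))) := by
    rintro ⟨a, b⟩ ⟨c, d⟩ h
    simp only [Prod.mk.injEq] at h ⊢
    exact ⟨Fin.ext h.1, Fin.ext h.2⟩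
  rw [h1, h2.ncard_image, ← Set.ncard_image_of_injective _ h3, cnt, List.countP_eq_length_filter,
    ← List.toFinset_card_of_nodup ((nodup_pairs _).filter _), ← Set.ncard_coe_finset]
  congr 1
  ext ⟨u, v⟩
  simp only [List.coe_toFinset, List.mem_filter, mem_pairs, decide_eq_true_eq, Set.mem_ofPred_eq,
    Set.mem_image, hP, adj_iff, Prod.mk.injEq]
  constructor
  · rintro ⟨⟨hu, hv⟩, h⟩
    exact ⟨(⟨u, hu⟩, ⟨v, hv⟩), h, rfl, rfl⟩
  · rintro ⟨⟨a, b⟩, h, rfl, rfl⟩
    exact ⟨⟨a.2, b.2⟩, h⟩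

/-- Arcs of the graph with the listed edges removed. -/
def arcs (A : List (List ℕ)) (S : List (ℕ × ℕ)) : List (ℕ × ℕ) :=
  (pairs A.length).filter fun p =>
    decide (adjB A p.1 p.2 = true ∧ ¬ ((p.1, p.2) ∈ S ∨ (p.2, p.1) ∈ S))

theorem mem_arcs {A : List (List ℕ)} {S : List (ℕ × ℕ)} {u v : ℕ} :
    (u, v) ∈ arcs A S ↔ adjB A u v = true ∧ ¬ ((u, v) ∈ S ∨ (v, u) ∈ S) := by
  simp only [arcs, List.mem_filter, mem_pairs, decide_eq_true_eq]
  exact ⟨fun h => h.2, fun h => ⟨adjB_lt h.1, h⟩⟩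

theorem adj_delete_iff {A : List (List ℕ)} {S : List (ℕ × ℕ)} (u v : Fin A.length) :
    ((graphOf A).deleteEdges (edgesOf (graphOf A) S)).Adj u v ↔
      ((u : ℕ), (v : ℕ)) ∈ arcs A S := by
  rw [SimpleGraph.deleteEdges_adj, mem_edgesOf, mem_arcs, adj_iff]
  tauto

theorem arcs_symm {A : List (List ℕ)} {S : List (ℕ × ℕ)} {u v : ℕ} (h : (u, v) ∈ arcs A S) :
    (v, u) ∈ arcs A S := by
  rw [mem_arcs] at h ⊢
  exact ⟨adjB_symm h.1, fun h' => h.2 h'.symm⟩

open Classical in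
/-- The first vertex of the component of `v`. -/
noncomputable def lead (n : ℕ) (E : List (ℕ × ℕ)) (v : ℕ) : ℕ :=
  ((List.range n).find? fun w =>
    decide (Relation.ReflTransGen (fun a b => (a, b) ∈ E) w v)).getD 0

theorem lead_reach {n : ℕ} (E : List (ℕ × ℕ)) {v : ℕ} (hv : v < n) :
    lead n E v < n ∧ Relation.ReflTransGen (fun a b => (a, b) ∈ E) (lead n E v) v := by
  classical
  unfold lead
  obtain ⟨w, hw⟩ : ∃ w, ((List.range n).find? fun w =>
      decide (Relation.ReflTransGen (fun a b => (a, b) ∈ E) w v)) = some w := by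
    rw [← Option.isSome_iff_exists, List.find?_isSome]
    exact ⟨v, List.mem_range.2 hv, decide_eq_true Relation.ReflTransGen.refl⟩
  have h1 := List.find?_some hw
  have h2 := List.mem_of_find?_eq_some hw
  rw [hw]
  exact ⟨List.mem_range.1 h2, of_decide_eq_true h1⟩

theorem lead_eq {n : ℕ} {E : List (ℕ × ℕ)} {u v : ℕ} (h : (u, v) ∈ E) (h' : (v, u) ∈ E) :
    lead n E u = lead n E v := by
  unfold lead
  congr 2
  funext w
  exact decide_eq_decide.2 ⟨fun r => r.tail h, fun r => r.tail h'⟩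

/-- The size of the component whose first vertex is `u`. -/
noncomputable def csize (n : ℕ) (E : List (ℕ × ℕ)) (u : ℕ) : ℕ :=
  (List.range n).countP fun v => decide (lead n E v = u)

theorem csize_eq (n : ℕ) (E : List (ℕ × ℕ)) (u : ℕ) :
    csize n E u = ((range n).filter fun v => lead n E v = u).card := by
  rw [csize, List.countP_eq_length_filter,
    ← List.toFinset_card_of_nodup (List.nodup_range.filter _)]
  congr 1
  ext v
  simp

theorem card_lead_mem (n : ℕ) (E : List (ℕ × ℕ)) (W : Finset ℕ) :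
    ((range n).filter fun v => lead n E v ∈ W).card = ∑ u ∈ W, csize n E u := by
  rw [card_eq_sum_card_fiberwise (f := lead n E) (s := (range n).filter fun v => lead n E v ∈ W)
    (t := W) (fun v hv => (mem_filter.1 (mem_coe.1 hv)).2)]
  refine sum_congr rfl fun u hu => ?_
  rw [csize_eq, filter_filter]
  congr 1
  refine filter_congr fun v _ => ⟨fun h => h.2, fun h => ⟨h ▸ hu, h⟩⟩

/-- All subset sums up to `n`. -/
def sums (n : ℕ) (cs : List ℕ) : List ℕ :=
  cs.foldr (fun c D => (List.range (n + 1)).filter fun i =>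
    decide (i ∈ D ∨ (c ≤ i ∧ i - c ∈ D))) [0]

theorem mem_sums (n : ℕ) (f : ℕ → ℕ) (us : List ℕ) (hus : us.Nodup) (i : ℕ) (hi : i ≤ n) :
    i ∈ sums n (us.map f) ↔ ∃ W ⊆ us.toFinset, ∑ u ∈ W, f u = i := by
  induction us generalizing i with
  | nil => simp [sums, eq_comm]
  | cons a us ih =>
    rw [List.nodup_cons] at hus
    have e : sums n ((a :: us).map f) = (List.range (n + 1)).filter fun i =>
      decide (i ∈ sums n (us.map f) ∨ (f a ≤ i ∧ i - f a ∈ sums n (us.map f))) := rfl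
    rw [e, List.mem_filter, List.mem_range, decide_eq_true_eq, ih hus.2 i hi,
      ih hus.2 (i - f a) (by omega), List.toFinset_cons]
    constructor
    · rintro ⟨-, ⟨W, hW, h⟩ | ⟨hle, W, hW, h⟩⟩
      · exact ⟨W, hW.trans (subset_insert _ _), h⟩
      · refine ⟨insert a W, insert_subset_insert _ hW, ?_⟩
        rw [sum_insert (fun ha => hus.1 (List.mem_toFinset.1 (hW ha)))]
        omega
    · rintro ⟨W, hW, h⟩
      refine ⟨by omega, ?_⟩
      by_cases ha : a ∈ W
      · rw [← add_sum_erase _ _ ha] at h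
        exact Or.inr ⟨by omega, W.erase a, subset_insert_iff.1 hW, by omega⟩
      · exact Or.inl ⟨W, (subset_insert_iff_of_notMem ha).1 hW, h⟩

/-- The test: at most `θ` listed edges, and their removal leaves a bisection. -/
noncomputable def good (A : List (List ℕ)) (θ : ℕ) (S : List (ℕ × ℕ)) : Bool :=
  decide (cnt A S ≤ θ ∧
    A.length / 2 ∈ sums A.length ((List.range A.length).map (csize A.length (arcs A S))))

theorem mem_sums_of_closed {A : List (List ℕ)} {S : List (ℕ × ℕ)} {V₁ : Finset (Fin A.length)}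
    (h : ∀ u v, ((graphOf A).deleteEdges (edgesOf (graphOf A) S)).Adj u v → u ∈ V₁ → v ∈ V₁) :
    V₁.card ∈ sums A.length ((List.range A.length).map (csize A.length (arcs A S))) := by
  classical
  rw [mem_sums _ _ _ List.nodup_range _ (by simpa using card_le_univ V₁)]
  set P : ℕ → Prop := fun u => ∃ hu : u < A.length, ⟨u, hu⟩ ∈ V₁ with hP
  have step : ∀ u v, (u, v) ∈ arcs A S → P u → P v := by
    rintro u v huv ⟨hu, hV⟩
    have hv := (adjB_lt (mem_arcs.1 huv).1).2
    exact ⟨hv, h ⟨u, hu⟩ ⟨v, hv⟩ ((adj_delete_iff _ _).2 huv) hV⟩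
  have hreach : ∀ u v, Relation.ReflTransGen (fun a b => (a, b) ∈ arcs A S) u v →
      (P u ↔ P v) := by
    intro u v r
    induction r with
    | refl => rfl
    | tail _ hbc ih => exact ih.trans ⟨step _ _ hbc, step _ _ (arcs_symm hbc)⟩
  refine ⟨(range A.length).filter P, by intro u hu; simpa using (mem_filter.1 hu).1, ?_⟩
  rw [← card_lead_mem, ← card_filter_range]
  congr 1
  ext v
  obtain ⟨h1, h2⟩ := lead_reach (arcs A S) v.2
  simp only [mem_filter, mem_univ, true_and, mem_range, h1, hreach _ _ h2]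
  simp [hP]

theorem good_of_bisecting {A : List (List ℕ)} {θ : ℕ} {S : List (ℕ × ℕ)}
    (hb : Bisecting (graphOf A) (edgesOf (graphOf A) S))
    (hc : (edgesOf (graphOf A) S).ncard ≤ θ) : good A θ S = true := by
  obtain ⟨V₁, h1, h2, h3⟩ := hb
  refine decide_eq_true ⟨(cnt_eq A S).trans_le hc, ?_⟩
  have e := card_compl V₁
  have e' := card_le_univ V₁
  rw [Fintype.card_fin] at e e'
  by_cases hV : V₁.card = A.length / 2
  · rw [← hV]
    refine mem_sums_of_closed fun u v huv hu => ?_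
    by_contra hv
    exact h3 u hu v hv huv
  · rw [← (by omega : V₁ᶜ.card = A.length / 2)]
    refine mem_sums_of_closed fun u v huv hu => ?_
    rw [mem_compl] at hu ⊢
    exact fun hv => h3 v hv u hu huv.symm

theorem exists_of_good {A : List (List ℕ)} {θ : ℕ} {S : List (ℕ × ℕ)} (h : good A θ S = true) :
    ∃ V₁ : Finset (Fin A.length), Balanced V₁ ∧ cut (graphOf A) V₁ ≤ θ := by
  obtain ⟨h1, h2⟩ := of_decide_eq_true h
  rw [mem_sums _ _ _ List.nodup_range _ (Nat.div_le_self _ _)] at h2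
  obtain ⟨W, -, hW⟩ := h2
  rw [← card_lead_mem, ← card_filter_range (fun v => lead A.length (arcs A S) v ∈ W)] at hW
  refine ⟨univ.filter fun v : Fin A.length => lead A.length (arcs A S) v ∈ W, ?_, ?_⟩
  · constructor <;> rw [card_compl, hW, Fintype.card_fin] <;> omega
  · refine (cut_le_of_sep (S := edgesOf (graphOf A) S) ?_).trans ((cnt_eq A S).symm.trans_le h1)
    intro u hu v hv huv
    rw [adj_delete_iff] at huv
    simp only [mem_filter, mem_univ, true_and] at hu hv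
    exact hv (lead_eq huv (arcs_symm huv) ▸ hu)

end Pool.Agent.Lib.MP_7de5c3_lc
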