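import Mathlib
import Pool.Prelude.Def_H_3587d628

/-!
Definitions for MP_7de5c3_lc: Edge Bisection as a parameterized minimisation problem, lossy
kernels, the gap version of the fixed-size cut problem, coNP/poly and the Small Set Expansion
Hypothesis.  Polynomial time is the notion `N68a2faeb.IsPolyTime` of the prelude (multi-stack
Turing machines acting on the binary codes of the prelude).
-/

namespace Pool.Agent.Lib.MP_7de5c3_lc

open N68a2faeb N487b59b3
open scoped ENNReal

/-- The simple graph given by adjacency lists `A`: its vertices are `0, …, A.length - 1`, and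
distinct vertices `i`, `j` are adjacent iff `j` occurs in list number `i` or `i` in list number
`j`. -/
def graphOf (A : List (List ℕ)) : SimpleGraph (Fin A.length) :=
  SimpleGraph.fromRel fun i j => (j : ℕ) ∈ A.getD i []

/-- `S` is a bisecting set: the vertices split into `V₁` and its complement, whose sizes differ by
at most one, with no edge of `G - S` between the two parts. -/
def Bisecting {n : ℕ} (G : SimpleGraph (Fin n)) (S : Set (Sym2 (Fin n))) : Prop :=
  ∃ V₁ : Finset (Fin n), V₁.card ≤ V₁ᶜ.card + 1 ∧ V₁ᶜ.card ≤ V₁.card + 1 ∧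
    ∀ u ∈ V₁, ∀ v ∉ V₁, ¬ (G.deleteEdges S).Adj u v

open Classical in
/-- The objective `Π(G, k, S)`: `min (|S|, k + 1)` if `S` is bisecting and `∞` otherwise. -/
noncomputable def cost {n : ℕ} (G : SimpleGraph (Fin n)) (k : ℕ) (S : Set (Sym2 (Fin n))) : ℝ≥0∞ :=
  if Bisecting G S then ((min S.ncard (k + 1) : ℕ) : ℝ≥0∞) else ⊤

/-- `OPT(G, k)`, the minimum of `Π(G, k, S)` over all sets `S` of edges of `G`. -/
noncomputable def optCost {n : ℕ} (G : SimpleGraph (Fin n)) (k : ℕ) : ℝ≥0∞ :=
  ⨅ (S : Set (Sym2 (Fin n))) (_ : S ⊆ G.edgeSet), cost G k S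

/-- The set of edges of `G` named by a list of pairs of vertex numbers. -/
def edgesOf {n : ℕ} (G : SimpleGraph (Fin n)) (S : List (ℕ × ℕ)) : Set (Sym2 (Fin n)) :=
  {e | ∃ u v : Fin n, e = s(u, v) ∧ G.Adj u v ∧ ((u : ℕ), (v : ℕ)) ∈ S}

/-- Every pair of the list is an edge of `G`. -/
def IsEdgeList {n : ℕ} (G : SimpleGraph (Fin n)) (S : List (ℕ × ℕ)) : Prop :=
  ∀ p ∈ S, ∃ u v : Fin n, G.Adj u v ∧ p = ((u : ℕ), (v : ℕ))

/-- An instance `(G, k)` of Edge Bisection: adjacency lists, and the parameter `k` in unary, as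
the length of a list. -/
abbrev Inst := List (List ℕ) × List Bool

/-- `|V(G)| + |E(G)| + k`. -/
noncomputable def Inst.size (I : Inst) : ℕ :=
  I.1.length + (graphOf I.1).edgeSet.ncard + I.2.length

/-- `Π(G, k, S)` for an instance and a list of edges. -/
noncomputable def Inst.val (I : Inst) (S : List (ℕ × ℕ)) : ℝ≥0∞ :=
  cost (graphOf I.1) I.2.length (edgesOf (graphOf I.1) S)

/-- `OPT(G, k)` for an instance. -/
noncomputable def Inst.opt (I : Inst) : ℝ≥0∞ := optCost (graphOf I.1) I.2.length

/-- The ratio `a / b` with the standard conventions `0 / 0 = 1` and `a / 0 = ∞` for `a > 0`. -/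
noncomputable def ratio (a b : ℝ≥0∞) : ℝ≥0∞ := if a = 0 ∧ b = 0 then 1 else a / b

/-- Edge Bisection has a polynomial `α`-lossy kernel: a polynomial-time reduction `red` with
output size at most `p(k)` and a polynomial-time solution lifting algorithm `lift`. -/
def HasPolyLossyKernel (α : ℝ) : Prop :=
  ∃ (p : Polynomial ℕ) (red : Inst → Inst) (lift : Inst × Inst × List (ℕ × ℕ) → List (ℕ × ℕ)),
    IsPolyTime red ∧ IsPolyTime lift ∧ ∀ I : Inst,
      (red I).size ≤ p.eval I.2.length ∧
      ∀ S' : List (ℕ × ℕ), IsEdgeList (graphOf (red I).1) S' →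
        ratio (I.val (lift (I, red I, S'))) I.opt ≤
          ENNReal.ofReal α * ratio ((red I).val S') (red I).opt

/-- The number of edges of `G` with exactly one end in `T`. -/
noncomputable def cut {n : ℕ} (G : SimpleGraph (Fin n)) (T : Finset (Fin n)) : ℕ :=
  {p : Fin n × Fin n | p.1 ∈ T ∧ p.2 ∉ T ∧ G.Adj p.1 p.2}.ncard

/-- An instance `(G, s, r)` of the fixed-size cut problem. -/
abbrev GapInst := List (List ℕ) × ℕ × ℕ

/-- Yes-instances: some set of exactly `s` vertices has at most `r` boundary edges. -/
def GapYes (x : GapInst) : Prop :=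
  ∃ T : Finset (Fin x.1.length), T.card = x.2.1 ∧ cut (graphOf x.1) T ≤ x.2.2

/-- No-instances: every set of exactly `s` vertices has more than `α r` boundary edges. -/
def GapNo (α : ℝ) (x : GapInst) : Prop :=
  ∀ T : Finset (Fin x.1.length), T.card = x.2.1 → α * (x.2.2 : ℝ) < (cut (graphOf x.1) T : ℝ)

/-- The promise problem `(Y, N)` is in promise-coNP/poly: there are polynomially long advice
strings `adv m`, depending only on the input length `m`, and a polynomial-time verifier `V` that
accepts no witness for a yes-instance and some polynomially long witness for a no-instance. -/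
def PromiseCoNPpoly {β : Type} [N487b59b3 β] (Y N : β → Prop) : Prop :=
  ∃ (p : Polynomial ℕ) (adv : ℕ → List Bool) (V : β × List Bool × List Bool → Bool),
    IsPolyTime V ∧ (∀ m, (adv m).length ≤ p.eval m) ∧ ∀ x : β,
      (Y x → ∀ w : List Bool, V (x, adv (bitEncode x).length, w) = false) ∧
      (N x → ∃ w : List Bool, w.length ≤ p.eval (bitEncode x).length ∧
        V (x, adv (bitEncode x).length, w) = true)

/-- The class coNP/poly. -/
def coNPpoly : Set DecisionProblem :=
  {L | ∃ (p : Polynomial ℕ) (adv : ℕ → List Bool) (V : List Bool × List Bool × List Bool → Bool),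
    IsPolyTime V ∧ (∀ m, (adv m).length ≤ p.eval m) ∧ ∀ x : List Bool,
      L x = false ↔ ∃ w : List Bool, w.length ≤ p.eval x.length ∧ V (x, adv x.length, w) = true}

/-- The edge expansion `|E(T, V ∖ T)| / (d |T|)` of a vertex set in a `d`-regular graph. -/
noncomputable def expansion {n : ℕ} (G : SimpleGraph (Fin n)) (d : ℕ) (T : Finset (Fin n)) : ℝ :=
  (cut G T : ℝ) / ((d : ℝ) * (T.card : ℝ))

/-- The Small Set Expansion Hypothesis of Raghavendra and Steurer: for every `η > 0` there is
`δ > 0` such that it is NP-hard (under polynomial-time many-one reductions) to distinguish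
regular graphs having a set of `δ n` vertices of expansion at most `η` from those in which all
sets of `δ n` vertices have expansion at least `1 - η`. -/
def SSEH : Prop :=
  ∀ η : ℝ, 0 < η → ∃ δ : ℝ, 0 < δ ∧ ∀ L ∈ NP, ∃ f : List Bool → List (List ℕ),
    IsPolyTime f ∧ ∀ x : List Bool, ∃ d : ℕ,
      (∀ v, ((graphOf (f x)).neighborSet v).ncard = d) ∧
      (L x = true → ∃ T : Finset (Fin (f x).length),
        (T.card : ℝ) = δ * (f x).length ∧ expansion (graphOf (f x)) d T ≤ η) ∧
      (L x = false → ∀ T : Finset (Fin (f x).length),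
        (T.card : ℝ) = δ * (f x).length → 1 - η ≤ expansion (graphOf (f x)) d T)

end Pool.Agent.Lib.MP_7de5c3_lc
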