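import Pool.Agent.Lib.MP_7de5c3_lc.Poly

/-! A fixed-length description of small instances. -/

namespace Pool.Agent.Lib.MP_7de5c3_lc

open N68a2faeb Pool.Agent.Shared.PolyTime N487b59b3

/-- The description of an instance with at most `P` vertices and parameter at most `P`. -/
def key (P : ℕ) (I : Inst) : List Bool :=
  (List.range P).map (fun i => decide (i < I.1.length)) ++
    ((List.range P).map (fun i => decide (i < I.2.length)) ++
      (pairs P).map fun p => adjB I.1 p.1 p.2)

theorem length_key (P : ℕ) (I : Inst) : (key P I).length = P + (P + P * P) := by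
  simp [key, pairs, List.length_product]

@[fun_prop] theorem key_pt {α : Type} [N487b59b3 α] {P : α → ℕ} {I : α → Inst}
    (hP : IsPolyTime P) (hb : PolyBdd P) (hI : IsPolyTime I) :
    IsPolyTime fun x => key (P x) (I x) := by
  unfold key; fun_prop

theorem unary_inj {P a b : ℕ} (ha : a ≤ P) (hb : b ≤ P)
    (h : (List.range P).map (fun i => decide (i < a)) =
      (List.range P).map (fun i => decide (i < b))) : a = b := by
  rw [List.map_inj_left] at h
  rcases lt_trichotomy a b with hab | hab | hab
  · have := h a (List.mem_range.2 (by omega))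
    simp [hab] at this
  · exact hab
  · have := h b (List.mem_range.2 (by omega))
    simp [hab] at this

theorem key_inj {P : ℕ} {I J : Inst} (hI1 : I.1.length ≤ P) (hI2 : I.2.length ≤ P)
    (hJ1 : J.1.length ≤ P) (hJ2 : J.2.length ≤ P) (h : key P I = key P J) :
    I.1.length = J.1.length ∧ I.2.length = J.2.length ∧ adjB I.1 = adjB J.1 := by
  unfold key at h
  obtain ⟨h1, h⟩ := List.append_inj h (by simp)
  obtain ⟨h2, h3⟩ := List.append_inj h (by simp)
  have e1 := unary_inj hI1 hJ1 h1
  refine ⟨e1, unary_inj hI2 hJ2 h2, ?_⟩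
  rw [List.map_inj_left] at h3
  funext u v
  by_cases huv : u < P ∧ v < P
  · exact h3 (u, v) (mem_pairs.2 huv)
  · rw [Bool.eq_iff_iff]
    exact ⟨fun h => absurd (adjB_lt h) (by omega), fun h => absurd (adjB_lt h) (by omega)⟩

/-- The graph on `Fin n` given by a Boolean function. -/
def gOn (n : ℕ) (a : ℕ → ℕ → Bool) : SimpleGraph (Fin n) :=
  SimpleGraph.fromRel fun u v => a u v = true

theorem graphOf_eq (A : List (List ℕ)) : graphOf A = gOn A.length (adjB A) := by
  ext u v
  rw [adj_iff, gOn, SimpleGraph.fromRel_adj]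
  constructor
  · intro h
    exact ⟨((adj_iff u v).2 h).ne, Or.inl h⟩
  · rintro ⟨-, h | h⟩
    · exact h
    · exact adjB_symm h

/-- `S` lists an optimal solution. -/
def OptList (I : Inst) (S : List (ℕ × ℕ)) : Prop :=
  IsEdgeList (graphOf I.1) S ∧ I.val S = I.opt

theorem OptList.of_key {P : ℕ} {I J : Inst} (hI : I.size ≤ P) (hJ : J.size ≤ P)
    (h : key P I = key P J) {S : List (ℕ × ℕ)} (hS : OptList I S) : OptList J S := by
  unfold Inst.size at hI hJ
  obtain ⟨h1, h2, h3⟩ := key_inj (P := P) (I := I) (J := J) (by omega) (by omega) (by omega)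
    (by omega) h
  have e : ∀ I : Inst, OptList I S ↔ (fun n a k => IsEdgeList (gOn n a) S ∧
      cost (gOn n a) k (edgesOf (gOn n a) S) = optCost (gOn n a) k)
      I.1.length (adjB I.1) I.2.length := by
    intro I
    simp only [OptList, Inst.val, Inst.opt, graphOf_eq]
  rw [e] at hS ⊢
  rw [← h1, ← h2, ← h3]
  exact hS

theorem exists_optList (I : Inst) : ∃ S, OptList I S ∧
    bsize S ≤ I.1.length * I.1.length * (2 * (3 * I.1.length + 1) + 1) := by
  obtain ⟨F, hF, hc⟩ := exists_cost_eq_optCost (graphOf I.1) I.2.length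
  obtain ⟨S, h1, h2, h3, h4⟩ := exists_edgeList _ hF
  refine ⟨S, ⟨h1, by rw [Inst.val, h2, hc, Inst.opt]⟩, ?_⟩
  refine (bsize_list_le S (3 * I.1.length + 1) fun p hp => ?_).trans
    (Nat.mul_le_mul_right _ h3)
  have := h4 p hp
  have := bsize_nat_le_self p.1
  have := bsize_nat_le_self p.2
  rw [bsize_prod]
  omega

end Pool.Agent.Lib.MP_7de5c3_lc
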