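import Pool.Agent.Lib.MP_7de5c3_lc.Key
import Pool.Agent.Lib.MP_7de5c3_lc.Cover

/-! A polynomial lossy kernel puts the gap cut problem into promise-coNP/poly. -/

namespace Pool.Agent.Lib.MP_7de5c3_lc

open N68a2faeb Pool.Agent.Shared.PolyTime N487b59b3
open scoped ENNReal

/-- The capped threshold. -/
def rr (x : GapInst) : ℕ := min x.2.2 (x.1.length * x.1.length)

/-- The composed instance with parameter `k`. -/
def HH (l : List GapInst) (k : ℕ) : Inst := (compose l k, List.replicate k false)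

/-- Advice entries: threshold, rounded gap, description of a small instance, a solution. -/
abbrev Entry := ℕ × ℕ × List Bool × List (ℕ × ℕ)

/-- The check of one entry. -/
noncomputable def chk (a : ℕ) (p : Polynomial ℕ) (red : Inst → Inst)
    (lift : Inst × Inst × List (ℕ × ℕ) → List (ℕ × ℕ)) (r : ℕ) (l : List GapInst) (e : Entry) :
    Bool :=
  decide (e.1 = r ∧ e.2.2.1 = key (p.eval (a * r)) (red (HH l (a * r))) ∧
    good (compose l (a * r)) e.2.1
      (lift (HH l (a * r), red (HH l (a * r)), e.2.2.2)) = false)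

/-- The verifier. -/
noncomputable def ver (a : ℕ) (p : Polynomial ℕ) (red : Inst → Inst)
    (lift : Inst × Inst × List (ℕ × ℕ) → List (ℕ × ℕ)) (y : GapInst × List Bool × List Bool) :
    Bool :=
  (bitDecode y.2.1 : Option (List Entry)).any fun es =>
    (bitDecode y.2.2 : Option (List GapInst)).any fun l =>
      decide (y.1 ∈ l) && es.any fun e => chk a p red lift (rr y.1) l e

theorem ver_pt (a : ℕ) (p : Polynomial ℕ) {red : Inst → Inst}
    {lift : Inst × Inst × List (ℕ × ℕ) → List (ℕ × ℕ)} (hr : IsPolyTime red)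
    (hl : IsPolyTime lift) : IsPolyTime (ver a p red lift) := by
  have h1 : IsPolyTime fun q : GapInst × List GapInst × Entry =>
      chk a p red lift (rr q.1) q.2.1 q.2.2 := by
    have b1 : PolyBdd fun q : GapInst × List GapInst × Entry => a * rr q.1 :=
      (PolyBdd.const a).mul (PolyBdd.min_right _ (by fun_prop))
    have b2 : IsPolyTime fun q : GapInst × List GapInst × Entry => rr q.1 := by
      unfold rr; fun_prop
    have b3 : IsPolyTime fun q : GapInst × List GapInst × Entry => a * rr q.1 := by fun_prop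
    have b4 : IsPolyTime fun q : GapInst × List GapInst × Entry => compose q.2.1 (a * rr q.1) :=
      compose_pt (by fun_prop) b3 b1
    have b5 : IsPolyTime fun q : GapInst × List GapInst × Entry => HH q.2.1 (a * rr q.1) :=
      b4.pair (IsPolyTime.replicate b3 b1 (by fun_prop))
    have b6 : IsPolyTime fun q : GapInst × List GapInst × Entry => red (HH q.2.1 (a * rr q.1)) :=
      hr.comp b5
    have b7 : IsPolyTime fun q : GapInst × List GapInst × Entry =>
        key (p.eval (a * rr q.1)) (red (HH q.2.1 (a * rr q.1))) :=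
      key_pt (b3.polyEval p) (b1.eval p) b6
    have b8 : IsPolyTime fun q : GapInst × List GapInst × Entry =>
        good (compose q.2.1 (a * rr q.1)) q.2.2.2.1
          (lift (HH q.2.1 (a * rr q.1), red (HH q.2.1 (a * rr q.1)), q.2.2.2.2.2)) :=
      good_pt b4 (by fun_prop) (hl.comp (b5.pair (b6.pair (by fun_prop))))
    unfold chk
    exact IsPolyTime.decide_and (IsPolyTime.decide_eq (by fun_prop) b2)
      (IsPolyTime.decide_and (IsPolyTime.decide_eq (by fun_prop) b7)
        (IsPolyTime.decide_eq b8 (by fun_prop)))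
  unfold ver
  refine IsPolyTime.optionAny (by fun_prop) ?_
  refine IsPolyTime.optionAny (by fun_prop) ?_
  refine IsPolyTime.and (by fun_prop) (IsPolyTime.any ?_ (by fun_prop))
  exact h1.comp (g := fun q : (((GapInst × List Bool × List Bool) × List Entry) × List GapInst) ×
    Entry => (q.1.1.1.1, q.1.2, q.2)) (by fun_prop)

/-- An entry carries the right rounded gap and an optimal solution of an instance with its key. -/
def Valid (α : ℝ) (a : ℕ) (p : Polynomial ℕ) (e : Entry) : Prop :=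
  e.2.1 = ⌊α * e.1⌋₊ ∧ ∃ I : Inst, I.size ≤ p.eval (a * e.1) ∧
    e.2.2.1 = key (p.eval (a * e.1)) I ∧ OptList I e.2.2.2

theorem floor_le {α : ℝ} (r : ℕ) : ⌊α * r⌋₊ ≤ ⌈α⌉₊ * r := by
  refine Nat.floor_le_of_le ?_
  push_cast
  exact mul_le_mul_of_nonneg_right (Nat.le_ceil α) (Nat.cast_nonneg r)

section

variable {α : ℝ} {p : Polynomial ℕ} {red : Inst → Inst}
  {lift : Inst × Inst × List (ℕ × ℕ) → List (ℕ × ℕ)}

theorem chk_yes (hα : 0 ≤ α)
    (H : ∀ I : Inst, (red I).size ≤ p.eval I.2.length ∧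
      ∀ S' : List (ℕ × ℕ), IsEdgeList (graphOf (red I).1) S' →
        ratio (I.val (lift (I, red I, S'))) I.opt ≤
          ENNReal.ofReal α * ratio ((red I).val S') (red I).opt)
    {x : GapInst} (hx : GapYes x) {l : List GapInst} (hl : x ∈ l) {e : Entry}
    (he : Valid α ⌈α⌉₊ p e) : chk ⌈α⌉₊ p red lift (rr x) l e = false := by
  refine decide_eq_false ?_
  rintro ⟨h1, h2, h3⟩
  obtain ⟨e1, I, hI, e2, hopt⟩ := he
  rw [h1] at e1 hI e2
  obtain ⟨hsz, hlift⟩ := H (HH l (⌈α⌉₊ * rr x))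
  have hk : (HH l (⌈α⌉₊ * rr x)).2.length = ⌈α⌉₊ * rr x := List.length_replicate
  rw [hk] at hsz
  have hopt' := hopt.of_key hI hsz (e2.symm.trans h2)
  have h4 := hlift _ hopt'.1
  rw [hopt'.2, ratio_self (b := Inst.opt _) (optCost_ne_top _ _), mul_one] at h4
  have h5 := le_of_ratio_le ENNReal.ofReal_ne_top (optCost_ne_top _ _) h4
  obtain ⟨T, hT, hc⟩ := hx
  obtain ⟨V₁, hb, hV⟩ := compose_yes (⌈α⌉₊ * rr x) hl T hT
  have h6 : cut (graphOf (compose l (⌈α⌉₊ * rr x))) V₁ ≤ rr x :=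
    hV.trans (le_min hc (cut_le_sq _ _))
  have h7 : optCost (graphOf (compose l (⌈α⌉₊ * rr x))) (HH l (⌈α⌉₊ * rr x)).2.length ≤
      (rr x : ℝ≥0∞) := (optCost_le_cut _ hb).trans (by exact_mod_cast h6)
  have h8 := good_of_cost_le hα ((floor_le (rr x)).trans hk.ge)
    (h5.trans (mul_le_mul_right h7 _))
  rw [e1] at h3
  exact absurd ((good_of_bisecting h8.1 h8.2).symm.trans h3) (by simp)

theorem good_no (hα : 0 ≤ α) {r : ℕ} {l : List GapInst} (hl : ∀ y ∈ l, GapNo α y ∧ rr y = r)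
    (S : List (ℕ × ℕ)) : good (compose l (⌈α⌉₊ * r)) ⌊α * r⌋₊ S = false := by
  rw [← Bool.not_eq_true]
  intro h
  obtain ⟨V₁, hb, hc⟩ := exists_of_good h
  obtain ⟨y, hy, T, hT, hcut⟩ := compose_no hb (hc.trans (floor_le r))
  obtain ⟨hno, hr⟩ := hl y hy
  have h1 := hno T hT
  have h2 : (cut (graphOf y.1) T : ℝ) ≤ ⌊α * r⌋₊ := by exact_mod_cast hcut.trans hc
  have h3 : (⌊α * r⌋₊ : ℝ) ≤ α * r := Nat.floor_le (by positivity)
  have h4 : (r : ℝ) ≤ y.2.2 := by exact_mod_cast hr.ge.trans (min_le_left _ _)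
  have := mul_le_mul_of_nonneg_left h4 hα
  linarith

theorem exists_entries (α : ℝ) (a : ℕ) (ha : ∀ r : ℕ, ⌊α * r⌋₊ ≤ a * r)
    (hsz : ∀ I : Inst, (red I).size ≤ p.eval I.2.length) (m r P : ℕ) (hr : r ≤ m * m)
    (hP : p.eval (a * r) ≤ P) :
    ∃ es : List Entry, es.length ≤ m + 1 ∧
      (∀ e ∈ es, Valid α a p e ∧ bsize e ≤ 2 * (m * m) + 1 + (2 * (a * (m * m)) + 1 +
        (2 * (3 * (P + (P + P * P))) + 1 + P * P * (2 * (3 * P + 1) + 1)))) ∧
      ∀ x : GapInst, bsize x = m → GapNo α x → rr x = r → ∃ l : List GapInst,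
        bsize l ≤ (P + (P + P * P) + 1) * (2 * m + 1) ∧ x ∈ l ∧
        (∀ y ∈ l, GapNo α y ∧ rr y = r) ∧
        ∃ e ∈ es, e.1 = r ∧ e.2.2.1 = key (p.eval (a * r)) (red (HH l (a * r))) := by
  classical
  set Q := p.eval (a * r) with hQ
  obtain ⟨Ks, hKs, hKs'⟩ := exists_strings (Q + (Q + Q * Q))
  obtain ⟨Ws, hWs, hWs'⟩ := exists_strings m
  have hfin : {y : GapInst | bsize y = m ∧ GapNo α y ∧ rr y = r}.Finite :=
    (Ws.finite_toSet.preimage bitEncode_injective.injOn).subset fun y hy => hWs' _ hy.1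
  have hcard : hfin.toFinset.card < 2 ^ (m + 1) := by
    have : hfin.toFinset.card ≤ Ws.card := Finset.card_le_card_of_injOn bitEncode
      (fun y hy => hWs' _ (hfin.mem_toFinset.1 hy).1) bitEncode_injective.injOn
    have := Nat.pow_lt_pow_right (a := 2) (by norm_num) (Nat.lt_succ_self m)
    omega
  obtain ⟨F, hF, -, hcov⟩ := exists_cover (t := Q + (Q + Q * Q) + 1) (Nat.succ_pos _)
    (fun f => key Q (red (HH (List.ofFn f) (a * r)))) Ks
    (hKs.trans (Nat.pow_le_pow_right (by norm_num) (Nat.le_succ _))) (m + 1) hfin.toFinset hcard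
    (fun f _ => hKs' _ (length_key _ _))
  choose sol hsol hsol' using exists_optList
  have hQP : Q + (Q + Q * Q) ≤ P + (P + P * P) := by
    have := Nat.mul_le_mul hP hP
    omega
  refine ⟨F.map fun f => (r, ⌊α * r⌋₊, key Q (red (HH (List.ofFn f) (a * r))),
    sol (red (HH (List.ofFn f) (a * r)))), by simpa using hF, ?_, ?_⟩
  · intro e he
    obtain ⟨f, -, rfl⟩ := List.mem_map.1 he
    have h0 := hsz (HH (List.ofFn f) (a * r))
    rw [show (HH (List.ofFn f) (a * r)).2.length = a * r from List.length_replicate] at h0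
    refine ⟨⟨rfl, _, h0, rfl, hsol _⟩, ?_⟩
    have h1 := bsize_nat_le_self r
    have h2 := (bsize_nat_le_self ⌊α * r⌋₊).trans ((ha r).trans (Nat.mul_le_mul_left a hr))
    have h3 := hsol' (red (HH (List.ofFn f) (a * r)))
    have h4 : (red (HH (List.ofFn f) (a * r))).1.length ≤ P := by
      unfold Inst.size at h0; omega
    have h5 := h3.trans (Nat.mul_le_mul (Nat.mul_le_mul h4 h4)
      (by omega : _ ≤ 2 * (3 * P + 1) + 1))
    simp only [bsize_pair, bsize_boolList, length_key]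
    omega
  · intro x h1 h2 h3
    obtain ⟨f₀, hf₀, f, hf, hk, i, hi⟩ := hcov x (hfin.mem_toFinset.2 ⟨h1, h2, h3⟩)
    have hf' : ∀ y ∈ List.ofFn f, bsize y = m ∧ GapNo α y ∧ rr y = r := by
      intro y hy
      obtain ⟨j, rfl⟩ := List.mem_ofFn.1 hy
      exact hfin.mem_toFinset.1 (hf j)
    refine ⟨List.ofFn f, ?_, List.mem_ofFn.2 ⟨i, hi⟩, fun y hy => (hf' y hy).2,
      _, List.mem_map.2 ⟨f₀, hf₀, rfl⟩, rfl, hk.symm⟩
    refine (bsize_list_le _ m fun y hy => (hf' y hy).1.le).trans ?_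
    rw [List.length_ofFn]
    exact Nat.mul_le_mul_right _ (by omega)

end

theorem rr_le (x : GapInst) : rr x ≤ bsize x * bsize x := by
  have h1 := length_le_bsize x.1
  have h2 := bsize_prod x
  exact (min_le_right _ _).trans (Nat.mul_le_mul (by omega) (by omega))

theorem gap_collapse {α : ℝ} (hα : 0 ≤ α) (h : HasPolyLossyKernel α) :
    PromiseCoNPpoly GapYes (GapNo α) := by
  obtain ⟨p, red, lift, hred, hlift, H⟩ := h
  set a := ⌈α⌉₊ with ha
  choose es h1 h2 h3 using fun (m : ℕ) (r : Fin (m * m + 1)) =>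
    exists_entries (p := p) (red := red) α a (fun r => floor_le r) (fun I => (H I).1) m r
      (p.eval (a * (m * m))) (Nat.lt_succ_iff.1 r.2)
      (eval_mono p (Nat.mul_le_mul_left a (Nat.lt_succ_iff.1 r.2)))
  have hP : Bdd (fun m : ℕ => m) fun m => p.eval (a * (m * m)) :=
    ((Bdd.const _ a).mul ((Bdd.refl _).mul (Bdd.refl _))).eval p
  obtain ⟨q, hq⟩ : Bdd (fun m : ℕ => m) fun m =>
      (m * m + 1) * (m + 1) * (2 * (2 * (m * m) + 1 + (2 * (a * (m * m)) + 1 +
        (2 * (3 * (p.eval (a * (m * m)) + (p.eval (a * (m * m)) +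
          p.eval (a * (m * m)) * p.eval (a * (m * m))))) + 1 +
          p.eval (a * (m * m)) * p.eval (a * (m * m)) *
            (2 * (3 * p.eval (a * (m * m)) + 1) + 1)))) + 1) +
      (p.eval (a * (m * m)) + (p.eval (a * (m * m)) +
          p.eval (a * (m * m)) * p.eval (a * (m * m))) + 1) * (2 * m + 1) := by
    repeat' first | exact hP | exact Bdd.refl _ | exact Bdd.const _ _ | apply Bdd.add | apply Bdd.mul
  refine ⟨q, fun m => bitEncode ((List.finRange (m * m + 1)).flatMap (es m)),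
    ver a p red lift, ver_pt a p hred hlift, fun m => ?_, fun x => ⟨fun hx w => ?_, fun hx => ?_⟩⟩
  · refine le_trans ?_ (le_trans (Nat.le_add_right _ _) (hq m))
    refine (bsize_list_le _ _ fun e he => ?_).trans (Nat.mul_le_mul_right _ ?_)
    · obtain ⟨r, -, he⟩ := List.mem_flatMap.1 he
      exact (h2 m r e he).2
    · rw [List.length_flatMap]
      refine (List.sum_le_card_nsmul _ (m + 1) ?_).trans (by simp)
      intro n hn
      obtain ⟨r, -, rfl⟩ := List.mem_map.1 hn
      exact h1 m r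
  · rw [← Bool.not_eq_true]
    intro hv
    simp only [ver, bitDecode_bitEncode, Option.any_some, Option.any_eq_true, Bool.and_eq_true,
      decide_eq_true_eq, List.any_eq_true] at hv
    obtain ⟨l, -, hl, e, he, hc⟩ := hv
    obtain ⟨r, -, he⟩ := List.mem_flatMap.1 he
    rw [chk_yes hα H hx hl (h2 _ r e he).1] at hc
    exact absurd hc (by simp)
  · obtain ⟨l, hl1, hl2, hl3, e, he, he1, he2⟩ :=
      h3 (bsize x) ⟨rr x, Nat.lt_succ_iff.2 (rr_le x)⟩ x rfl hx rfl
    refine ⟨bitEncode l, hl1.trans ((Nat.le_add_left _ _).trans (hq _)), ?_⟩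
    simp only [ver, bitDecode_bitEncode, Option.any_some, Bool.and_eq_true,
      decide_eq_true_eq, List.any_eq_true]
    refine ⟨hl2, e, List.mem_flatMap.2 ⟨_, List.mem_finRange _, he⟩, decide_eq_true ⟨he1, he2, ?_⟩⟩
    rw [(h2 _ _ e he).1.1, he1]
    exact good_no hα hl3 _

end Pool.Agent.Lib.MP_7de5c3_lc
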