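import Pool.Agent.Lib.MP_7de5c3_lc.Decide
import Pool.Agent.Shared.PolyTime.Extra

/-! Polynomial running time of the composition and of the test. -/

namespace Pool.Agent.Lib.MP_7de5c3_lc

open N68a2faeb Pool.Agent.Shared.PolyTime N487b59b3

variable {α : Type} [N487b59b3 α]

@[fun_prop] theorem arc_pt {A : α → List (List ℕ)} {u v : α → ℕ} (hA : IsPolyTime A)
    (hu : IsPolyTime u) (hv : IsPolyTime v) : IsPolyTime fun x => arc (A x) (u x) (v x) := by
  unfold arc; fun_prop

@[fun_prop] theorem adjB_pt {A : α → List (List ℕ)} {u v : α → ℕ} (hA : IsPolyTime A)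
    (hu : IsPolyTime u) (hv : IsPolyTime v) : IsPolyTime fun x => adjB (A x) (u x) (v x) := by
  unfold adjB; fun_prop

@[fun_prop] theorem pairs_pt {n : α → ℕ} (hn : IsPolyTime n) (hb : PolyBdd n) :
    IsPolyTime fun x => pairs (n x) := by
  unfold pairs; fun_prop

@[fun_prop] theorem cnt_pt {A : α → List (List ℕ)} {S : α → List (ℕ × ℕ)} (hA : IsPolyTime A)
    (hS : IsPolyTime S) : IsPolyTime fun x => cnt (A x) (S x) := by
  unfold cnt; fun_prop

@[fun_prop] theorem arcs_pt {A : α → List (List ℕ)} {S : α → List (ℕ × ℕ)} (hA : IsPolyTime A)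
    (hS : IsPolyTime S) : IsPolyTime fun x => arcs (A x) (S x) := by
  unfold arcs; fun_prop

@[fun_prop] theorem lead_pt {n : α → ℕ} {E : α → List (ℕ × ℕ)} {v : α → ℕ} (hn : IsPolyTime n)
    (hb : PolyBdd n) (hE : IsPolyTime E) (hv : IsPolyTime v) :
    IsPolyTime fun x => lead (n x) (E x) (v x) := by
  unfold lead; fun_prop

@[fun_prop] theorem csize_pt {n : α → ℕ} {E : α → List (ℕ × ℕ)} {v : α → ℕ} (hn : IsPolyTime n)
    (hb : PolyBdd n) (hE : IsPolyTime E) (hv : IsPolyTime v) :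
    IsPolyTime fun x => csize (n x) (E x) (v x) := by
  unfold csize; fun_prop

@[fun_prop] theorem sums_pt {n : α → ℕ} {cs : α → List ℕ} (hn : IsPolyTime n)
    (hb : PolyBdd n) (hcs : IsPolyTime cs) : IsPolyTime fun x => sums (n x) (cs x) := by
  unfold sums
  refine IsPolyTime.foldr_inv (by fun_prop) (by fun_prop) hcs
    (fun x D => D.Sublist (List.range (n x + 1))) (fun x => ?_)
    (fun x D b _ _ => List.filter_sublist) (fun x => bsize (List.range (n x + 1))) (by fun_prop)
    (fun x D hD => bsize_sublist hD)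
  rw [List.range_succ_eq_map]
  simp

@[fun_prop] theorem good_pt {A : α → List (List ℕ)} {θ : α → ℕ} {S : α → List (ℕ × ℕ)}
    (hA : IsPolyTime A) (hθ : IsPolyTime θ) (hS : IsPolyTime S) :
    IsPolyTime fun x => good (A x) (θ x) (S x) := by
  unfold good; fun_prop

theorem lab_pt {t : α → ℕ} {len : α → ℕ → ℕ} {W : α → ℕ → ℕ → ℕ} (ht : IsPolyTime t)
    (htb : PolyBdd t) (hl : IsPolyTime fun p : α × ℕ => len p.1 p.2)
    (hlb : PolyBdd fun p : α × ℕ => len p.1 p.2)
    (hW : IsPolyTime fun p : (α × ℕ) × ℕ => W p.1.1 p.1.2 p.2)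
    (hWb : PolyBdd fun p : (α × ℕ) × ℕ => W p.1.1 p.1.2 p.2) :
    IsPolyTime fun x => lab (t x) (len x) (W x) := by
  unfold lab
  refine IsPolyTime.flatMap ?_ (by fun_prop)
  refine IsPolyTime.flatMap ?_ (IsPolyTime.range hl hlb)
  exact IsPolyTime.map (by fun_prop) (IsPolyTime.range hW hWb)

@[fun_prop] theorem gI_pt {l : α → List GapInst} {j : α → ℕ} (hl : IsPolyTime l)
    (hj : IsPolyTime j) : IsPolyTime fun x => gI (l x) (j x) := by
  unfold gI; fun_prop

@[fun_prop] theorem nn_pt {l : α → List GapInst} {j : α → ℕ} (hl : IsPolyTime l)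
    (hj : IsPolyTime j) : IsPolyTime fun x => nn (l x) (j x) := by
  unfold nn; fun_prop

@[fun_prop] theorem nn_bd {l : α → List GapInst} {j : α → ℕ} (hl : IsPolyTime l)
    (hj : IsPolyTime j) : PolyBdd fun x => nn (l x) (j x) := by
  unfold nn; fun_prop

@[fun_prop] theorem NN_pt {l : α → List GapInst} (hl : IsPolyTime l) :
    IsPolyTime fun x => NN (l x) := by
  unfold NN; fun_prop

@[fun_prop] theorem NN_bd {l : α → List GapInst} (hl : IsPolyTime l) :
    PolyBdd fun x => NN (l x) := by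
  unfold NN; fun_prop

@[fun_prop] theorem ss_pt {l : α → List GapInst} {j : α → ℕ} (hl : IsPolyTime l)
    (hj : IsPolyTime j) : IsPolyTime fun x => ss (l x) (j x) := by
  unfold ss; fun_prop

@[fun_prop] theorem BB_pt {l : α → List GapInst} {k : α → ℕ} (hl : IsPolyTime l)
    (hk : IsPolyTime k) : IsPolyTime fun x => BB (l x) (k x) := by
  unfold BB; fun_prop

@[fun_prop] theorem BB_bd {l : α → List GapInst} {k : α → ℕ} (hl : IsPolyTime l)
    (hk : PolyBdd k) : PolyBdd fun x => BB (l x) (k x) := by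
  unfold BB; fun_prop

@[fun_prop] theorem ww_pt {l : α → List GapInst} {k j : α → ℕ} (hl : IsPolyTime l)
    (hk : IsPolyTime k) (hj : IsPolyTime j) : IsPolyTime fun x => ww (l x) (k x) (j x) := by
  unfold ww; fun_prop

@[fun_prop] theorem ww_bd {l : α → List GapInst} {k : α → ℕ} (j : α → ℕ) (hl : IsPolyTime l)
    (hk : PolyBdd k) : PolyBdd fun x => ww (l x) (k x) (j x) := by
  have h : PolyBdd fun x => min (j x) (l x).length := PolyBdd.min_right _ (by fun_prop)
  have hB := BB_bd hl hk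
  exact ((hB.mul hB).add (hB.mul h)).add (h.mul h)

@[fun_prop] theorem ZZ_pt {l : α → List GapInst} {k : α → ℕ} (hl : IsPolyTime l)
    (hk : IsPolyTime k) : IsPolyTime fun x => ZZ (l x) (k x) := by
  unfold ZZ; fun_prop

@[fun_prop] theorem ZZ_bd {l : α → List GapInst} {k : α → ℕ} (hl : IsPolyTime l)
    (hk : PolyBdd k) : PolyBdd fun x => ZZ (l x) (k x) := by
  unfold ZZ; fun_prop

@[fun_prop] theorem W0_pt {l : α → List GapInst} {k j v : α → ℕ} (hl : IsPolyTime l)
    (hk : IsPolyTime k) (hj : IsPolyTime j) (hv : IsPolyTime v) :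
    IsPolyTime fun x => W0 (l x) (k x) (j x) (v x) := by
  unfold W0; fun_prop

@[fun_prop] theorem W0_bd {l : α → List GapInst} {k : α → ℕ} (j v : α → ℕ) (hl : IsPolyTime l)
    (hk : PolyBdd k) : PolyBdd fun x => W0 (l x) (k x) (j x) (v x) :=
  PolyBdd.ite (ww_bd j hl hk) ((ZZ_bd hl hk).sub _)

theorem rest_lab {l : α → List GapInst} {k : α → ℕ} (hl : IsPolyTime l)
    (hk : IsPolyTime k) (hkb : PolyBdd k) :
    IsPolyTime fun x => lab (l x).length (fun j => nn (l x) j + 1) (W0 (l x) (k x)) :=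
  lab_pt (by fun_prop) (by fun_prop) (by fun_prop) (by fun_prop) (by fun_prop)
    (W0_bd _ _ (by fun_prop) (by fun_prop))

@[fun_prop] theorem rest_pt {l : α → List GapInst} {k : α → ℕ} (hl : IsPolyTime l)
    (hk : IsPolyTime k) (hkb : PolyBdd k) : IsPolyTime fun x => rest (l x) (k x) :=
  (rest_lab hl hk hkb).length

@[fun_prop] theorem rest_bd {l : α → List GapInst} {k : α → ℕ} (hl : IsPolyTime l)
    (hk : IsPolyTime k) (hkb : PolyBdd k) : PolyBdd fun x => rest (l x) (k x) :=
  PolyBdd.length (rest_lab hl hk hkb)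

@[fun_prop] theorem ln_pt {l : α → List GapInst} {j : α → ℕ} (hl : IsPolyTime l)
    (hj : IsPolyTime j) : IsPolyTime fun x => ln (l x) (j x) := by
  unfold ln; fun_prop

@[fun_prop] theorem ln_bd {l : α → List GapInst} {j : α → ℕ} (hl : IsPolyTime l)
    (hj : IsPolyTime j) : PolyBdd fun x => ln (l x) (j x) := by
  unfold ln; fun_prop

@[fun_prop] theorem WW_pt {l : α → List GapInst} {k j v : α → ℕ} (hl : IsPolyTime l)
    (hk : IsPolyTime k) (hkb : PolyBdd k) (hj : IsPolyTime j) (hv : IsPolyTime v) :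
    IsPolyTime fun x => WW (l x) (k x) (j x) (v x) := by
  unfold WW; fun_prop

theorem WW_bd {l : α → List GapInst} {k : α → ℕ} (j v : α → ℕ) (hl : IsPolyTime l)
    (hk : IsPolyTime k) (hkb : PolyBdd k) : PolyBdd fun x => WW (l x) (k x) (j x) (v x) :=
  PolyBdd.ite (W0_bd j v hl hkb) (PolyBdd.ite (by fun_prop) (by fun_prop))

@[fun_prop] theorem compose_pt {l : α → List GapInst} {k : α → ℕ} (hl : IsPolyTime l)
    (hk : IsPolyTime k) (hkb : PolyBdd k) : IsPolyTime fun x => compose (l x) (k x) := by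
  have h : IsPolyTime fun x => lab ((l x).length + 1) (ln (l x)) (WW (l x) (k x)) :=
    lab_pt (by fun_prop) (by fun_prop) (by fun_prop) (by fun_prop) (by fun_prop)
      (WW_bd _ _ (by fun_prop) (by fun_prop) (by fun_prop))
  have h2 : ∀ L : α → List (ℕ × ℕ × ℕ), IsPolyTime L →
      IsPolyTime fun x => mkAdj (L x) (relL fun j u v => arc (gI (l x) j).1 u v) := by
    intro L hL
    unfold mkAdj relL
    fun_prop
  exact h2 _ h

end Pool.Agent.Lib.MP_7de5c3_lc
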