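import Pool.Agent.Lib.MP_7de5c3_lc.Main

/-! From the Small Set Expansion Hypothesis to hardness of the gap cut problem. -/

namespace Pool.Agent.Lib.MP_7de5c3_lc

open N68a2faeb Pool.Agent.Shared.PolyTime N487b59b3

theorem mem_coNPpoly_of_reduction {β : Type} [N487b59b3 β] {Y N : β → Prop}
    (h : PromiseCoNPpoly Y N) {L : DecisionProblem} {g : List Bool → β} (hg : IsPolyTime g)
    (hY : ∀ x, L x = true → Y (g x)) (hN : ∀ x, L x = false → N (g x)) : L ∈ coNPpoly := by
  obtain ⟨p, adv, V, hV, hadv, H⟩ := h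
  obtain ⟨q, hq⟩ := PolyBdd.bsize hg
  have hq' : ∀ x : List Bool, bsize (g x) ≤ q.eval (3 * x.length) := fun x =>
    (hq x).trans_eq (by rw [← bsize_boolList])
  have hQ : Bdd (fun m : ℕ => m) fun m => q.eval (3 * m) :=
    ((Bdd.const _ 3).mul (Bdd.refl _)).eval q
  have hP := hQ.eval p
  obtain ⟨r, hr⟩ : Bdd (fun m : ℕ => m) fun m =>
      (q.eval (3 * m) + 1) * (2 * (3 * p.eval (q.eval (3 * m))) + 1) + p.eval (q.eval (3 * m)) := by
    repeat' first | exact hP | exact hQ | exact Bdd.const _ _ | apply Bdd.add | apply Bdd.mul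
  refine ⟨r, fun m => bitEncode ((List.range (q.eval (3 * m) + 1)).map adv),
    fun y => (bitDecode y.2.1 : Option (List (List Bool))).any fun as =>
      V (g y.1, as.getD (bsize (g y.1)) [], y.2.2), ?_, fun m => ?_, fun x => ?_⟩
  · refine IsPolyTime.optionAny (by fun_prop) (hV.comp ?_)
    have h1 : IsPolyTime fun z : (List Bool × List Bool × List Bool) × List (List Bool) =>
      g z.1.1 := hg.comp (by fun_prop)
    exact h1.pair ((IsPolyTime.getD (by fun_prop) h1.bsize (by fun_prop)).pair (by fun_prop))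
  · refine le_trans ?_ (le_trans (Nat.le_add_right _ _) (hr m))
    refine (bsize_list_le _ (3 * p.eval (q.eval (3 * m))) fun a ha => ?_).trans (by simp)
    obtain ⟨i, hi, rfl⟩ := List.mem_map.1 ha
    rw [bsize_boolList]
    exact Nat.mul_le_mul_left _ ((hadv i).trans
      (eval_mono p (Nat.lt_succ_iff.1 (List.mem_range.1 hi))))
  · have e : ((List.range (q.eval (3 * x.length) + 1)).map adv).getD (bsize (g x)) [] =
        adv (bitEncode (g x)).length := by
      rw [List.getD_eq_getElem _ _ (by simpa using Nat.lt_succ_iff.2 (hq' x))]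
      simp [bsize]
    simp only [bitDecode_bitEncode, Option.any_some, e]
    constructor
    · intro hx
      obtain ⟨w, hw, hw'⟩ := (H (g x)).2 (hN x hx)
      exact ⟨w, hw.trans ((eval_mono p (hq' x)).trans ((Nat.le_add_left _ _).trans (hr _))), hw'⟩
    · rintro ⟨w, -, hw⟩
      rw [← Bool.not_eq_true]
      intro hx
      rw [(H (g x)).1 (hY x hx) w] at hw
      exact absurd hw (by simp)

theorem exists_size_fun (δ : ℝ) : ∃ σ : ℕ → ℕ, IsPolyTime σ ∧
    ∀ n s : ℕ, s ≤ n → ((s : ℝ) = δ * n ↔ s = σ n) := by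
  by_cases h : ∃ a b : ℕ, 0 < b ∧ (a : ℝ) = δ * b
  · obtain ⟨a, b, hb, hab⟩ := h
    refine ⟨fun n => if b ∣ a * n then a * n / b else n + 1, by fun_prop, fun n s hs => ?_⟩
    have hb' : (b : ℝ) ≠ 0 := by positivity
    have key : (s : ℝ) = δ * n ↔ b * s = a * n := by
      rw [← Nat.cast_inj (R := ℝ)]
      push_cast
      rw [hab]
      constructor
      · intro e; rw [e]; ring
      · intro e
        exact mul_left_cancel₀ hb' (by rw [e]; ring)
    rw [key]
    dsimp only
    split_ifs with hd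
    · obtain ⟨c, hc⟩ := hd
      rw [hc, Nat.mul_div_cancel_left _ hb]
      exact ⟨fun e => Nat.eq_of_mul_eq_mul_left hb e, fun e => by rw [e]⟩
    · exact ⟨fun e => absurd ⟨s, e.symm⟩ hd, fun e => by omega⟩
  · refine ⟨fun n => if n = 0 then 0 else n + 1, by fun_prop, fun n s hs => ?_⟩
    dsimp only
    split_ifs with hn
    · subst hn
      simp
    · exact ⟨fun e => absurd ⟨s, n, Nat.pos_of_ne_zero hn, e⟩ h, fun e => by omega⟩

/-- The degree of vertex `0`. -/
def deg0 (A : List (List ℕ)) : ℕ := (List.range A.length).countP fun v => adjB A 0 v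

theorem deg0_eq {A : List (List ℕ)} (h : 0 < A.length) :
    deg0 A = ((graphOf A).neighborSet ⟨0, h⟩).ncard := by
  rw [deg0, List.countP_eq_length_filter,
    ← List.toFinset_card_of_nodup (List.nodup_range.filter _),
    ← Set.ncard_image_of_injective _ Fin.val_injective, ← Set.ncard_coe_finset]
  congr 1
  ext v
  simp only [List.coe_toFinset, List.mem_filter, List.mem_range, Set.mem_ofPred_eq, Set.mem_image,
    SimpleGraph.mem_neighborSet, adj_iff]
  constructor
  · rintro ⟨hv, ha⟩
    exact ⟨⟨v, hv⟩, ha, rfl⟩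
  · rintro ⟨u, ha, rfl⟩
    exact ⟨u.2, ha⟩

theorem gap_hard (h : SSEH) {α : ℝ} (hα : 0 ≤ α) {L : DecisionProblem} (hL : L ∈ NP) :
    ∃ g : List Bool → GapInst, IsPolyTime g ∧ (∀ x, L x = true → GapYes (g x)) ∧
      ∀ x, L x = false → GapNo α (g x) := by
  obtain ⟨q, hq⟩ := exists_nat_gt (α + 1)
  have hq0 : (0 : ℝ) < q := by linarith
  obtain ⟨δ, -, H⟩ := h (1 / q) (by positivity)
  obtain ⟨f, hf, H⟩ := H L hL
  obtain ⟨σ, hσ, hσ'⟩ := exists_size_fun δ
  have hcard : ∀ (x) (T : Finset (Fin (f x).length)), T.card ≤ (f x).length := fun x T => by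
    simpa using Finset.card_le_univ T
  have hdeg : ∀ (x) (d : ℕ), (∀ v, ((graphOf (f x)).neighborSet v).ncard = d) →
      ∀ T : Finset (Fin (f x).length), deg0 (f x) * T.card = d * T.card := by
    intro x d hd T
    obtain rfl | ⟨v, -⟩ := T.eq_empty_or_nonempty
    · simp
    · rw [deg0_eq v.pos, hd]
  refine ⟨fun x => (f x, σ (f x).length, deg0 (f x) * σ (f x).length / q), ?_, ?_, ?_⟩
  · have h1 : IsPolyTime fun x => σ (f x).length := hσ.comp (by fun_prop)
    have h2 : IsPolyTime fun x => deg0 (f x) := by unfold deg0; fun_prop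
    exact hf.pair (h1.pair ((h2.mul h1).div (by fun_prop)))
  · intro x hx
    obtain ⟨d, hd, h1, -⟩ := H x
    obtain ⟨T, hT, he⟩ := h1 hx
    have hs := (hσ' _ _ (hcard x T)).1 hT
    refine ⟨T, hs, ?_⟩
    show _ ≤ deg0 (f x) * σ (f x).length / q
    rw [← hs, hdeg x d hd T, Nat.le_div_iff_mul_le (by exact_mod_cast hq0)]
    by_cases h0 : d * T.card = 0
    · have : cut (graphOf (f x)) T = 0 := by
        unfold cut
        rw [Set.ncard_eq_zero (Set.toFinite _), Set.eq_empty_iff_forall_notMem]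
        rintro ⟨u, v⟩ ⟨hu, -, huv⟩
        rcases Nat.mul_eq_zero.1 h0 with h0 | h0
        · have := hd u
          rw [h0, Set.ncard_eq_zero (Set.toFinite _), Set.eq_empty_iff_forall_notMem] at this
          exact this v huv
        · rw [Finset.card_eq_zero.1 h0] at hu
          exact absurd hu (by simp)
      simp [this]
    · have hpos : (0 : ℝ) < (d : ℝ) * T.card := by exact_mod_cast Nat.pos_of_ne_zero h0
      unfold expansion at he
      rw [div_le_div_iff₀ hpos hq0, one_mul] at he
      exact_mod_cast he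
  · intro x hx T hT
    obtain ⟨d, hd, -, h1⟩ := H x
    have he := h1 hx T ((hσ' _ _ (hcard x T)).2 hT)
    show α * ((deg0 (f x) * σ (f x).length / q : ℕ) : ℝ) < cut (graphOf (f x)) T
    replace hT : T.card = σ (f x).length := hT
    rw [← hT, hdeg x d hd T]
    have h1q : 0 < 1 - 1 / (q : ℝ) := by
      rw [sub_pos, div_lt_one hq0]; linarith
    unfold expansion at he
    have hpos : (0 : ℝ) < (d : ℝ) * T.card := by
      rcases (by positivity : (0 : ℝ) ≤ (d : ℝ) * T.card).eq_or_lt with h0 | h0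
      · rw [← h0, div_zero] at he; linarith
      · exact h0
    rw [le_div_iff₀ hpos] at he
    have h2 : ((d * T.card / q : ℕ) : ℝ) ≤ (d : ℝ) * T.card / q := by
      exact_mod_cast Nat.cast_div_le (α := ℝ) (m := d * T.card) (n := q)
    have h3 : α * ((d : ℝ) * T.card / q) < (1 - 1 / q) * (d * T.card) := by
      have : (1 - 1 / (q : ℝ)) * (d * T.card) = (q - 1) * ((d : ℝ) * T.card / q) := by
        field_simp
      rw [this]
      exact mul_lt_mul_of_pos_right (by linarith) (by positivity)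
    have := mul_le_mul_of_nonneg_left h2 hα
    linarith

theorem np_subset_of_kernel (h : SSEH) {α : ℝ} (hα : 0 ≤ α) (hk : HasPolyLossyKernel α) :
    NP ⊆ coNPpoly := by
  intro L hL
  obtain ⟨g, hg, hY, hN⟩ := gap_hard h hα hL
  exact mem_coNPpoly_of_reduction (gap_collapse hα hk) hg hY hN

end Pool.Agent.Lib.MP_7de5c3_lc
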